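import Pool.Agent.Y508.Ellipse

/-!
Transitivity of the string construction characterises ellipses.
-/

set_option autoImplicit false
open MeasureTheory Metric Set Filter Topology
open scoped ENNReal

namespace Pool.Agent.Y508

theorem cont_qe : Continuous (fun p : (Fin 6 → ℝ) × E2 => qe p.1 p.2) := by
  unfold qe
  fun_prop

theorem tr_ellipse {K : Set E2} (hK : Body K) (hT : Tr K) :
    ∃ f : E2 ≃ᵃ[ℝ] E2, K = f '' closedBall 0 1 := by
  set ln : ℕ → ℝ := fun n => W K + 1 / ((n : ℝ) + 1) with hln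
  have hln1 : ∀ n, W K < ln n := by
    intro n
    have : 0 < 1 / ((n : ℝ) + 1) := by positivity
    simp only [hln]; linarith
  have hlnt : Tendsto ln atTop (𝓝 (W K)) := by
    have := (tendsto_const_nhds (x := W K)).add (tendsto_one_div_add_atTop_nhds_zero_nat (𝕜 := ℝ))
    rw [add_zero] at this
    exact this
  choose c hc0 hc using fun n => level_conic hK hT (hln1 n)
  set d : ℕ → (Fin 6 → ℝ) := fun n => (‖c n‖⁻¹) • c n with hd
  have hd1 : ∀ n, d n ∈ sphere (0 : Fin 6 → ℝ) 1 := by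
    intro n
    rw [mem_sphere, dist_zero_right, hd]
    simp only
    rw [norm_smul, norm_inv, norm_norm, inv_mul_cancel₀ (norm_ne_zero_iff.2 (hc0 n))]
  obtain ⟨e, he, φ, hφ, het⟩ := (isCompact_sphere (0 : Fin 6 → ℝ) 1).tendsto_subseq hd1
  have he0 : e ≠ 0 := by
    intro h
    rw [h, mem_sphere, dist_self] at he
    exact zero_ne_one he
  refine conic_ellipse hK he0 fun P hP => ?_
  by_contra hne
  have h1 : ∀ᶠ p in 𝓝 (e, P), qe p.1 p.2 ≠ 0 :=
    (cont_qe.continuousAt (x := (e, P))).eventually_ne hne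
  rw [nhds_prod_eq, eventually_prod_iff] at h1
  obtain ⟨pa, hpa, pb, hpb, hab⟩ := h1
  obtain ⟨ε, hε, hball⟩ := Metric.eventually_nhds_iff.1 hpb
  have hPcl : P ∈ closure Kᶜ := (frontier_eq_closure_inter_closure (s := K) ▸ hP).2
  obtain ⟨Y, hY, hYd⟩ := Metric.mem_closure_iff.1 hPcl ε hε
  have hPK : P ∈ K := hK.cpt.isClosed.frontier_subset hP
  have hYL := lt_LL hK hY
  have h2 : ∀ᶠ n in atTop, ln (φ n) < LL K Y :=
    (hlnt.comp hφ.tendsto_atTop).eventually (gt_mem_nhds hYL)
  have h3 : ∀ᶠ n in atTop, pa ((d ∘ φ) n) := het.eventually hpa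
  obtain ⟨n, hn1, hn2⟩ := (h2.and h3).exists
  have hfc : Continuous (fun s : ℝ => LL K (P + s • (Y - P))) := (cont_LL hK).comp (by fun_prop)
  obtain ⟨s, hs, hsl⟩ := intermediate_value_Icc (zero_le_one (α := ℝ)) hfc.continuousOn
    (show ln (φ n) ∈ Icc (LL K (P + (0 : ℝ) • (Y - P))) (LL K (P + (1 : ℝ) • (Y - P))) by
      rw [zero_smul, add_zero, one_smul, add_sub_cancel, LL_of_mem hK hPK]
      exact ⟨(hln1 _).le, hn1.le⟩)
  simp only at hsl
  have h4 : dist (P + s • (Y - P)) P < ε := by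
    rw [dist_eq_norm, add_sub_cancel_left, norm_smul, Real.norm_eq_abs, abs_of_nonneg hs.1]
    rw [dist_comm, dist_eq_norm] at hYd
    calc s * ‖Y - P‖ ≤ 1 * ‖Y - P‖ := mul_le_mul_of_nonneg_right hs.2 (norm_nonneg _)
      _ < ε := by rw [one_mul]; exact hYd
  have h5 := hab hn2 (hball h4)
  apply h5
  simp only [Function.comp_apply, hd]
  rw [qe_smul, hc (φ n) _ hsl, mul_zero]

theorem main (K : Set E2) (h1 : IsCompact K) (h2 : Convex ℝ K) (h3 : (interior K).Nonempty)
    (h : ∀ ℓ1 : ℝ, (Measure.hausdorffMeasure 1 (frontier K)).toReal < ℓ1 →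
        ∀ ℓ2 : ℝ,
          (Measure.hausdorffMeasure 1
              (frontier {x : E2 |
                (Measure.hausdorffMeasure 1
                  (frontier (convexHull ℝ (insert x K)))).toReal ≤ ℓ1})).toReal < ℓ2 →
          ∃ ℓ3 : ℝ,
            {y : E2 |
              (Measure.hausdorffMeasure 1
                (frontier (convexHull ℝ (insert y
                  {x : E2 |
                    (Measure.hausdorffMeasure 1
                      (frontier (convexHull ℝ (insert x K)))).toReal ≤ ℓ1})))).toReal = ℓ2}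
            = {y : E2 |
              (Measure.hausdorffMeasure 1
                (frontier (convexHull ℝ (insert y K)))).toReal = ℓ3}) :
    ∃ f : E2 ≃ᵃ[ℝ] E2, K = f '' Metric.closedBall 0 1 := by
  have hK : Body K := ⟨h1, h2, h3⟩
  apply tr_ellipse hK
  intro l1 hl1 l2 hl2
  have hb := Kl_body hK hl1.le
  have e1 : {x : E2 | (Measure.hausdorffMeasure 1
      (frontier (convexHull ℝ (insert x K)))).toReal ≤ l1} = Kl K l1 := by
    ext x
    show (Measure.hausdorffMeasure 1 (frontier (convexHull ℝ (insert x K)))).toReal ≤ l1 ↔ LL K x ≤ l1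
    rw [perim_hull hK]
  have h4 := h l1 (by rw [perim_eq hK]; exact hl1) l2 (by rw [e1, perim_eq hb]; exact hl2)
  obtain ⟨l3, h5⟩ := h4
  refine ⟨l3, ?_⟩
  rw [e1] at h5
  simp only [perim_hull hb, perim_hull hK] at h5
  exact h5

end Pool.Agent.Y508
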