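import Mathlib

/-!
Plane convex bodies: unit vectors, support function.
-/

set_option autoImplicit false
open MeasureTheory Metric Set Filter Topology

namespace Pool.Agent.Y508

abbrev E2 := EuclideanSpace ℝ (Fin 2)

/-- point of the plane with given coordinates -/
noncomputable def pt (x y : ℝ) : E2 := !₂[x, y]

/-- unit vector -/
noncomputable def ev (θ : ℝ) : E2 := pt (Real.cos θ) (Real.sin θ)

/-- scalar product with the unit vector -/
noncomputable def ip (x : E2) (θ : ℝ) : ℝ := x 0 * Real.cos θ + x 1 * Real.sin θ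

/-- support function -/
noncomputable def hs (K : Set E2) (θ : ℝ) : ℝ := sSup ((fun x : E2 => ip x θ) '' K)

/-- integral of the support function -/
noncomputable def W (K : Set E2) : ℝ := ∫ θ in (0 : ℝ)..(2 * Real.pi), hs K θ

/-- convex bodies -/
structure Body (K : Set E2) : Prop where
  cpt : IsCompact K
  cvx : Convex ℝ K
  int : (interior K).Nonempty

theorem Body.ne {K : Set E2} (h : Body K) : K.Nonempty := h.int.mono interior_subset

@[simp] theorem pt_zero (x y : ℝ) : pt x y 0 = x := rfl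
@[simp] theorem pt_one (x y : ℝ) : pt x y 1 = y := rfl
@[simp] theorem ev_zero (θ : ℝ) : ev θ 0 = Real.cos θ := rfl
@[simp] theorem ev_one (θ : ℝ) : ev θ 1 = Real.sin θ := rfl

theorem inner_ev (x : E2) (θ : ℝ) : inner ℝ x (ev θ) = ip x θ := by
  simp [ev, pt, ip, PiLp.inner_apply, Fin.sum_univ_two, mul_comm]

theorem inner_E2 (x y : E2) : inner ℝ x y = x 0 * y 0 + x 1 * y 1 := by
  simp [PiLp.inner_apply, Fin.sum_univ_two, mul_comm]

theorem norm_sq_E2 (x : E2) : ‖x‖ ^ 2 = x 0 ^ 2 + x 1 ^ 2 := by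
  rw [EuclideanSpace.norm_sq_eq, Fin.sum_univ_two, Real.norm_eq_abs, Real.norm_eq_abs, sq_abs,
    sq_abs]

theorem norm_ev (θ : ℝ) : ‖ev θ‖ = 1 := by
  rw [EuclideanSpace.norm_eq, Fin.sum_univ_two]
  simp [ev, pt]

theorem exists_ev (v : E2) (hv : ‖v‖ = 1) : ∃ θ : ℝ, v = ev θ := by
  have h1 : (v 0) ^ 2 + (v 1) ^ 2 = 1 := by
    rw [← norm_sq_E2, hv, one_pow]
  have hz : ‖(⟨v 0, v 1⟩ : ℂ)‖ = 1 := by
    rw [Complex.norm_eq_sqrt_sq_add_sq]
    simp only
    rw [h1, Real.sqrt_one]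
  have hz0 : (⟨v 0, v 1⟩ : ℂ) ≠ 0 := by
    intro h
    rw [h, norm_zero] at hz
    exact zero_ne_one hz
  refine ⟨Complex.arg ⟨v 0, v 1⟩, ?_⟩
  have hc := Complex.cos_arg hz0
  have hs := Complex.sin_arg (⟨v 0, v 1⟩ : ℂ)
  rw [hz, div_one] at hc hs
  ext i
  fin_cases i
  · simp [ev, pt, hc]
  · simp [ev, pt, hs]

theorem exists_pos_ev (v : E2) (hv : v ≠ 0) : ∃ θ : ℝ, v = ‖v‖ • ev θ := by
  have hp : 0 < ‖v‖ := norm_pos_iff.2 hv
  obtain ⟨θ, hθ⟩ := exists_ev (‖v‖⁻¹ • v) (by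
    rw [norm_smul, norm_inv, norm_norm, inv_mul_cancel₀ hp.ne'])
  refine ⟨θ, ?_⟩
  rw [← hθ, smul_smul, mul_inv_cancel₀ hp.ne', one_smul]

theorem cont_ev : Continuous ev := by
  unfold ev pt
  have h : Continuous fun θ : ℝ => (![Real.cos θ, Real.sin θ] : Fin 2 → ℝ) := by
    refine continuous_pi fun i => ?_
    fin_cases i
    · exact Real.continuous_cos
    · exact Real.continuous_sin
  exact (PiLp.continuous_toLp 2 _).comp h

theorem cont_ip2 : Continuous (fun p : ℝ × E2 => ip p.2 p.1) := by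
  have h : Continuous (fun p : ℝ × E2 => inner ℝ p.2 (ev p.1)) :=
    continuous_snd.inner (cont_ev.comp continuous_fst)
  exact h.congr fun p => inner_ev _ _

theorem cont_ip (x : E2) : Continuous (ip x) := by
  unfold ip
  fun_prop

theorem cont_in (θ : ℝ) : Continuous (fun x : E2 => ip x θ) :=
  cont_ip2.comp (Continuous.prodMk_right θ)

theorem ip_add (x y : E2) (θ : ℝ) : ip (x + y) θ = ip x θ + ip y θ := by
  simp [ip]; ring

theorem ip_sub (x y : E2) (θ : ℝ) : ip (x - y) θ = ip x θ - ip y θ := by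
  simp [ip]; ring

theorem ip_smul (c : ℝ) (x : E2) (θ : ℝ) : ip (c • x) θ = c * ip x θ := by
  simp [ip]; ring

theorem ip_neg (x : E2) (θ : ℝ) : ip (-x) θ = - ip x θ := by
  simp [ip]; ring

theorem ip_ev (a θ : ℝ) : ip (ev a) θ = Real.cos (θ - a) := by
  simp only [ip, ev_zero, ev_one, Real.cos_sub]; ring

theorem ip_two_pi (x : E2) (θ : ℝ) : ip x (θ + 2 * Real.pi) = ip x θ := by
  simp [ip]

theorem ip_add_pi (x : E2) (θ : ℝ) : ip x (θ + Real.pi) = - ip x θ := by
  simp [ip, Real.cos_add_pi, Real.sin_add_pi]; ring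

theorem ip_sub_pi (x : E2) (θ : ℝ) : ip x (θ - Real.pi) = - ip x θ := by
  have := ip_add_pi x (θ - Real.pi)
  rw [sub_add_cancel] at this
  linarith

theorem abs_ip_le (x : E2) (θ : ℝ) : |ip x θ| ≤ ‖x‖ := by
  rw [← inner_ev]
  have := abs_real_inner_le_norm x (ev θ)
  rwa [norm_ev, mul_one] at this

theorem hs_two_pi (K : Set E2) (θ : ℝ) : hs K (θ + 2 * Real.pi) = hs K θ := by
  unfold hs
  simp only [ip_two_pi]

theorem le_hs {K : Set E2} (hK : IsCompact K) {x : E2} (hx : x ∈ K) (θ : ℝ) :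
    ip x θ ≤ hs K θ :=
  le_csSup (hK.image (cont_in θ)).bddAbove (mem_image_of_mem _ hx)

theorem exists_hs {K : Set E2} (hK : IsCompact K) (hne : K.Nonempty) (θ : ℝ) :
    ∃ x ∈ K, hs K θ = ip x θ :=
  hK.exists_sSup_image_eq hne (cont_in θ).continuousOn

theorem hs_le {K : Set E2} (hne : K.Nonempty) {θ c : ℝ} (h : ∀ x ∈ K, ip x θ ≤ c) :
    hs K θ ≤ c := by
  unfold hs
  apply csSup_le (hne.image _)
  rintro _ ⟨x, hx, rfl⟩
  exact h x hx

theorem hs_mono {K K' : Set E2} (hK' : IsCompact K') (hne : K.Nonempty) (h : K ⊆ K') (θ : ℝ) :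
    hs K θ ≤ hs K' θ := hs_le hne fun _ hx => le_hs hK' (h hx) θ

theorem cont_hs {K : Set E2} (hK : IsCompact K) : Continuous (hs K) :=
  IsCompact.continuous_sSup (f := fun (θ : ℝ) (x : E2) => ip x θ) hK cont_ip2

/-- the function `ev` along an arc of length `< π` -/
theorem ip_arc (x : E2) (a b θ : ℝ) :
    Real.sin (b - a) * ip x θ = Real.sin (b - θ) * ip x a + Real.sin (θ - a) * ip x b := by
  simp only [ip, Real.sin_sub]
  have h1 := Real.sin_sq_add_cos_sq a
  have h2 := Real.sin_sq_add_cos_sq b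
  have h3 := Real.sin_sq_add_cos_sq θ
  ring

/-- separation of a point by the support function -/
theorem sep {K : Set E2} (hK : IsCompact K) (hc : Convex ℝ K) (hne : K.Nonempty) {x : E2}
    (hx : x ∉ K) : ∃ θ : ℝ, hs K θ < ip x θ := by
  obtain ⟨y, hy, hmin⟩ := exists_norm_eq_iInf_of_complete_convex hne hK.isComplete hc x
  have hle := (norm_eq_iInf_iff_real_inner_le_zero hc hy).1 hmin
  have hxy : x ≠ y := fun h => hx (h ▸ hy)
  have hpos : 0 < ‖x - y‖ := norm_pos_iff.2 (sub_ne_zero.2 hxy)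
  obtain ⟨θ, hθ⟩ := exists_pos_ev (x - y) (sub_ne_zero.2 hxy)
  refine ⟨θ, ?_⟩
  obtain ⟨w, hw, hwe⟩ := exists_hs hK hne θ
  have h1 := hle w hw
  rw [hθ, real_inner_comm, real_inner_smul_right, inner_ev, ip_sub] at h1
  have h2 : ip (x - y) θ = ‖x - y‖ := by
    have : ip (x - y) θ = ip (‖x - y‖ • ev θ) θ := by rw [← hθ]
    rw [this, ip_smul, ip_ev, sub_self, Real.cos_zero, mul_one]
  rw [ip_sub] at h2
  have h3 : ip w θ - ip y θ ≤ 0 := by
    by_contra h4
    push Not at h4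
    have := mul_pos hpos h4
    linarith
  rw [hwe]
  linarith

theorem mem_of_ip_le {K : Set E2} (hK : IsCompact K) (hc : Convex ℝ K) (hne : K.Nonempty) {x : E2}
    (hx : ∀ θ, ip x θ ≤ hs K θ) : x ∈ K := by
  by_contra h
  obtain ⟨θ, hθ⟩ := sep hK hc hne h
  exact absurd (hx θ) (not_le.2 hθ)

/-- width is positive -/
theorem width_pos {K : Set E2} (hK : Body K) (θ : ℝ) : 0 < hs K θ + hs K (θ + Real.pi) := by
  obtain ⟨x, hx⟩ := hK.int
  obtain ⟨r, hr, hb⟩ := Metric.isOpen_iff.1 isOpen_interior x hx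
  have h1 : x + (r / 2) • ev θ ∈ K := by
    apply interior_subset
    apply hb
    rw [mem_ball, dist_eq_norm, add_sub_cancel_left, norm_smul, norm_ev, mul_one,
      Real.norm_eq_abs, abs_of_pos (by positivity)]
    linarith
  have h2 := le_hs hK.cpt h1 θ
  have h3 := le_hs hK.cpt (interior_subset hx) (θ + Real.pi)
  rw [ip_add, ip_smul, ip_ev, sub_self, Real.cos_zero] at h2
  rw [ip_add_pi] at h3
  linarith

/-- convexity of the support function along arcs -/
theorem hs_arc {K : Set E2} (hK : IsCompact K) (hne : K.Nonempty) {a b θ : ℝ}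
    (h1 : 0 ≤ Real.sin (b - θ)) (h2 : 0 ≤ Real.sin (θ - a)) :
    Real.sin (b - a) * hs K θ ≤ Real.sin (b - θ) * hs K a + Real.sin (θ - a) * hs K b := by
  obtain ⟨x, hx, hxe⟩ := exists_hs hK hne θ
  rw [hxe, ip_arc]
  have h3 := mul_le_mul_of_nonneg_left (le_hs hK hx a) h1
  have h4 := mul_le_mul_of_nonneg_left (le_hs hK hx b) h2
  linarith

end Pool.Agent.Y508
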