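import Pool.Agent.Y508.Sym

/-!
Level curves lie on conics.
-/

set_option autoImplicit false
open MeasureTheory Metric Set Filter Topology
open scoped ENNReal

namespace Pool.Agent.Y508

theorem ident_all {K : Set E2} (hK : Body K) (hT : Tr K) {l α β : ℝ} (hl : W K < l) {P Q : E2}
    (hP : P ∈ Kl K l) (hPs : ip P α = hs (Kl K l) α)
    (hQ : Q ∈ Kl K l) (hQs : ip Q β = hs (Kl K l) β) :
    ‖G K P‖⁻¹ * ip (P - Q) α = ‖G K Q‖⁻¹ * ip (Q - P) β := by
  have hpi := Real.pi_pos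
  -- reduce to `β ∈ [α, α + 2π)`
  have key : ∀ β, α ≤ β → β < α + 2 * Real.pi → ip Q β = hs (Kl K l) β →
      ‖G K P‖⁻¹ * ip (P - Q) α = ‖G K Q‖⁻¹ * ip (Q - P) β := by
    intro β h1 h2 hQs
    rcases lt_or_eq_of_le h1 with h1 | h1
    · rcases lt_trichotomy β (α + Real.pi) with h | h | h
      · exact ident hK hT hl h1 h hP hPs hQ hQs
      · -- antipodal: limit
        have hb := Kl_body hK hl.le
        set βn : ℕ → ℝ := fun n => β - Real.pi / ((n : ℝ) + 2) with hβn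
        have c1 : ∀ n, α < βn n := by
          intro n
          have : Real.pi / ((n : ℝ) + 2) < Real.pi := by
            rw [div_lt_iff₀ (by positivity)]
            have h2 : (0 : ℝ) ≤ n := Nat.cast_nonneg n
            nlinarith
          simp only [hβn]; linarith
        have c2 : ∀ n, βn n < α + Real.pi := by
          intro n
          have : 0 < Real.pi / ((n : ℝ) + 2) := div_pos hpi (by positivity)
          simp only [hβn]; linarith
        have c3 : Tendsto βn atTop (𝓝 β) := by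
          have h1 : Tendsto (fun n : ℕ => Real.pi / ((n : ℝ) + 2)) atTop (𝓝 0) := by
            apply Tendsto.div_atTop tendsto_const_nhds
            exact tendsto_atTop_add_const_right _ _ tendsto_natCast_atTop_atTop
          have := (tendsto_const_nhds (x := β)).sub h1
          simpa using this
        choose Qn hQn hQns using fun n => exists_hs hb.cpt hb.ne (βn n)
        have c4 : Tendsto Qn atTop (𝓝 Q) :=
          supp_tendsto hK hl (fun _ => le_refl l) tendsto_const_nhds c3 hQn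
            (fun n => (hQns n).symm) hQ hQs
        have c5 : ∀ n, ‖G K P‖⁻¹ * ip (P - Qn n) α = ‖G K (Qn n)‖⁻¹ * ip (Qn n - P) (βn n) :=
          fun n => ident hK hT hl (c1 n) (c2 n) hP hPs (hQn n) (hQns n).symm
        have hQout := supp_out hK hl hQ hQs
        have gQ := G_ne_zero hK hQout
        have l1 : Tendsto (fun n => ‖G K P‖⁻¹ * ip (P - Qn n) α) atTop
            (𝓝 (‖G K P‖⁻¹ * ip (P - Q) α)) := by
          apply Tendsto.const_mul
          exact ((cont_in α).tendsto (P - Q)).comp (tendsto_const_nhds.sub c4)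
        have l2 : Tendsto (fun n => ‖G K (Qn n)‖⁻¹ * ip (Qn n - P) (βn n)) atTop
            (𝓝 (‖G K Q‖⁻¹ * ip (Q - P) β)) := by
          apply Tendsto.mul
          · exact (((G_cont hK hQout).tendsto.comp c4).norm).inv₀ gQ.ne'
          · exact (cont_ip2.tendsto (β, Q - P)).comp (c3.prodMk_nhds (c4.sub tendsto_const_nhds))
        refine tendsto_nhds_unique l1 (l2.congr fun n => (c5 n).symm)
      · have e1 : ip P (α + 2 * Real.pi) = hs (Kl K l) (α + 2 * Real.pi) := by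
          rw [ip_two_pi, hs_two_pi]; exact hPs
        have := ident hK hT hl (α := β) (β := α + 2 * Real.pi) (by linarith) (by linarith)
          hQ hQs hP e1
        rw [ip_two_pi] at this
        exact this.symm
    · subst h1
      have : P = Q := strict hK hl hP hQ hPs hQs
      rw [this]
  have h2pi := Real.two_pi_pos
  have hmem := toIcoMod_mem_Ico h2pi α β
  have hadd := toIcoMod_add_toIcoDiv_zsmul h2pi α β
  have e : toIcoMod h2pi α β = β + ((-(toIcoDiv h2pi α β) : ℤ) : ℝ) * (2 * Real.pi) := by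
    rw [zsmul_eq_mul] at hadd
    push_cast
    linarith
  have h3 := key (toIcoMod h2pi α β) hmem.1 hmem.2 (by rw [e, ip_per, hs_per]; exact hQs)
  rw [e, ip_per] at h3
  exact h3

/-- normalised normal vector -/
noncomputable def N (K : Set E2) (P : E2) : E2 := (‖G K P‖⁻¹ * ‖G K P‖⁻¹) • G K P

theorem level_dir {K : Set E2} (hK : Body K) {l : ℝ} (hl : W K < l) {P : E2} (hP : LL K P = l) :
    P ∈ Kl K l ∧ 0 < ‖G K P‖ ∧ ∃ α, ip P α = hs (Kl K l) α ∧
      ∀ v, inner ℝ (N K P) v = ‖G K P‖⁻¹ * ip v α := by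
  have hmem : P ∈ Kl K l := hP.le
  have hout : P ∉ K := by
    intro h
    rw [LL_of_mem hK h] at hP
    linarith
  have hg := G_ne_zero hK hout
  obtain ⟨m, δ, hv⟩ := exists_Vis hK hout
  have hG := hv.G_eq hK
  have hn := hv.norm_G hK
  have hs := level_supp hK hl.le hP (by have := hv.sin_pos; linarith) hG
  refine ⟨hmem, hg, m, hs, fun v => ?_⟩
  unfold N
  rw [inner_smul_left, supp_grad hK hl hmem hs, inner_smul_left, real_inner_comm, inner_ev]
  simp only [conj_trivial]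
  rw [norm_smul, norm_norm, norm_ev, mul_one]
  field_simp

theorem sym_pts {K : Set E2} (hK : Body K) (hT : Tr K) {l : ℝ} (hl : W K < l) {P Q : E2}
    (hP : LL K P = l) (hQ : LL K Q = l) :
    inner ℝ (N K P) (P - Q) = inner ℝ (N K Q) (Q - P) := by
  obtain ⟨hP1, _, α, hPs, hPi⟩ := level_dir hK hl hP
  obtain ⟨hQ1, _, β, hQs, hQi⟩ := level_dir hK hl hQ
  rw [hPi, hQi]
  exact ident_all hK hT hl hP1 hPs hQ1 hQs

theorem pos_pts {K : Set E2} (hK : Body K) {l : ℝ} (hl : W K < l) {P Q : E2}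
    (hP : LL K P = l) (hQ : LL K Q = l) (hne : P ≠ Q) : 0 < inner ℝ (N K P) (P - Q) := by
  obtain ⟨hP1, hg, α, hPs, hPi⟩ := level_dir hK hl hP
  have hQ1 : Q ∈ Kl K l := hQ.le
  rw [hPi]
  apply mul_pos (inv_pos.2 hg)
  rw [ip_sub, sub_pos, hPs]
  apply lt_of_le_of_ne (le_hs (Kl_body hK hl.le).cpt hQ1 α)
  intro h
  exact hne (strict hK hl hP1 hQ1 hPs h)

/-- three distinct points of the level curve -/
theorem three_pts {K : Set E2} (hK : Body K) {l : ℝ} (hl : W K < l) :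
    ∃ P1 P2 P3 : E2, LL K P1 = l ∧ LL K P2 = l ∧ LL K P3 = l ∧ P1 ≠ P2 ∧ P1 ≠ P3 ∧ P2 ≠ P3 := by
  have hb := Kl_body hK hl.le
  obtain ⟨P1, h1, h1s⟩ := exists_hs hb.cpt hb.ne 0
  obtain ⟨P2, h2, h2s⟩ := exists_hs hb.cpt hb.ne (Real.pi / 2)
  obtain ⟨P3, h3, h3s⟩ := exists_hs hb.cpt hb.ne Real.pi
  refine ⟨P1, P2, P3, supp_level hK hl.le h1 h1s.symm, supp_level hK hl.le h2 h2s.symm,
    supp_level hK hl.le h3 h3s.symm, ?_, ?_, ?_⟩
  · apply supp_ne hK hl h1 h1s.symm h2 h2s.symm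
    intro h
    have := congrArg (fun x : E2 => x 0) h
    simp at this
  · apply supp_ne hK hl h1 h1s.symm h3 h3s.symm
    intro h
    have := congrArg (fun x : E2 => x 0) h
    simp at this
    norm_num at this
  · apply supp_ne hK hl h2 h2s.symm h3 h3s.symm
    intro h
    have := congrArg (fun x : E2 => x 0) h
    simp at this

/-- cross product -/
def cr (a b : E2) : ℝ := a 0 * b 1 - a 1 * b 0

/-- quadratic polynomials -/
def qe (c : Fin 6 → ℝ) (x : E2) : ℝ :=
  c 0 + c 1 * x 0 + c 2 * x 1 + c 3 * x 0 ^ 2 + c 4 * (x 0 * x 1) + c 5 * x 1 ^ 2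

/-- the conic through the level curve -/
noncomputable def phi (P1 P2 P3 N1 N2 N3 Q : E2) : ℝ :=
  cr (P2 - Q) (P3 - Q) * inner ℝ N1 (P1 - Q) + cr (P3 - Q) (P1 - Q) * inner ℝ N2 (P2 - Q) +
    cr (P1 - Q) (P2 - Q) * inner ℝ N3 (P3 - Q)

theorem qe_mul (a0 a1 a2 b0 b1 b2 : ℝ) : ∃ c : Fin 6 → ℝ, ∀ x : E2,
    (a0 + a1 * x 0 + a2 * x 1) * (b0 + b1 * x 0 + b2 * x 1) = qe c x := by
  refine ⟨![a0 * b0, a0 * b1 + a1 * b0, a0 * b2 + a2 * b0, a1 * b1, a1 * b2 + a2 * b1, a2 * b2],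
    fun x => ?_⟩
  simp [qe]
  ring

theorem qe_add (c d : Fin 6 → ℝ) (x : E2) : qe c x + qe d x = qe (c + d) x := by
  simp [qe]
  ring

theorem qe_smul (t : ℝ) (c : Fin 6 → ℝ) (x : E2) : qe (t • c) x = t * qe c x := by
  simp [qe]
  ring

theorem qe_zero (x : E2) : qe 0 x = 0 := by simp [qe]

theorem cr_aff (A B : E2) (x : E2) : cr (A - x) (B - x) =
    (A 0 * B 1 - A 1 * B 0) + (A 1 - B 1) * x 0 + (B 0 - A 0) * x 1 := by
  simp [cr]
  ring

theorem in_aff (M P x : E2) : inner ℝ M (P - x) =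
    (M 0 * P 0 + M 1 * P 1) + (-M 0) * x 0 + (-M 1) * x 1 := by
  rw [inner_E2]
  simp
  ring

theorem phi_qe (P1 P2 P3 N1 N2 N3 : E2) : ∃ c : Fin 6 → ℝ, ∀ x, phi P1 P2 P3 N1 N2 N3 x = qe c x := by
  obtain ⟨c1, h1⟩ := qe_mul (P2 0 * P3 1 - P2 1 * P3 0) (P2 1 - P3 1) (P3 0 - P2 0)
    (N1 0 * P1 0 + N1 1 * P1 1) (-N1 0) (-N1 1)
  obtain ⟨c2, h2⟩ := qe_mul (P3 0 * P1 1 - P3 1 * P1 0) (P3 1 - P1 1) (P1 0 - P3 0)
    (N2 0 * P2 0 + N2 1 * P2 1) (-N2 0) (-N2 1)
  obtain ⟨c3, h3⟩ := qe_mul (P1 0 * P2 1 - P1 1 * P2 0) (P1 1 - P2 1) (P2 0 - P1 0)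
    (N3 0 * P3 0 + N3 1 * P3 1) (-N3 0) (-N3 1)
  refine ⟨c1 + c2 + c3, fun x => ?_⟩
  unfold phi
  rw [cr_aff, cr_aff, cr_aff, in_aff, in_aff, in_aff, h1, h2, h3, qe_add, qe_add]

theorem level_conic {K : Set E2} (hK : Body K) (hT : Tr K) {l : ℝ} (hl : W K < l) :
    ∃ c : Fin 6 → ℝ, c ≠ 0 ∧ ∀ Q, LL K Q = l → qe c Q = 0 := by
  obtain ⟨P1, P2, P3, h1, h2, h3, h12, h13, h23⟩ := three_pts hK hl
  obtain ⟨c, hc⟩ := phi_qe P1 P2 P3 (N K P1) (N K P2) (N K P3)
  refine ⟨c, ?_, fun Q hQ => ?_⟩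
  · intro h0
    -- evaluate at the midpoint of `P1` and `P2`
    have e := hc ((1 / 2 : ℝ) • (P1 + P2))
    rw [h0, qe_zero] at e
    have p12 := pos_pts hK hl h1 h2 h12
    have p13 := pos_pts hK hl h1 h3 h13
    have p21 := pos_pts hK hl h2 h1 h12.symm
    have p23 := pos_pts hK hl h2 h3 h23
    have p31 := pos_pts hK hl h3 h1 h13.symm
    have p32 := pos_pts hK hl h3 h2 h23.symm
    have e1 : phi P1 P2 P3 (N K P1) (N K P2) (N K P3) ((1 / 2 : ℝ) • (P1 + P2)) =
        (1 / 4) * (cr (P2 - P1) (P3 - P1)) *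
          (inner ℝ (N K P1) (P1 - P2) + inner ℝ (N K P2) (P2 - P1)) := by
      unfold phi
      simp only [inner_E2, cr, PiLp.sub_apply, PiLp.smul_apply, PiLp.add_apply, smul_eq_mul]
      ring
    rw [e1] at e
    have e2 : cr (P2 - P1) (P3 - P1) = 0 := by
      rcases mul_eq_zero.1 e with h | h
      · rcases mul_eq_zero.1 h with h' | h'
        · norm_num at h'
        · exact h'
      · linarith
    -- collinear: contradiction
    have hcol : ∃ t : ℝ, P3 - P1 = t • (P2 - P1) := by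
      have hA : P2 - P1 ≠ 0 := sub_ne_zero.2 h12.symm
      by_cases hA0 : (P2 - P1) 0 = 0
      · have hA1 : (P2 - P1) 1 ≠ 0 := by
          intro hA1
          apply hA
          ext i
          fin_cases i
          · exact hA0
          · exact hA1
        refine ⟨(P3 - P1) 1 / (P2 - P1) 1, ?_⟩
        unfold cr at e2
        rw [hA0, zero_mul, zero_sub, neg_eq_zero] at e2
        have hB0 : (P3 - P1) 0 = 0 := (mul_eq_zero.1 e2).resolve_left hA1
        ext i
        fin_cases i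
        · show (P3 - P1) 0 = ((P3 - P1) 1 / (P2 - P1) 1) * (P2 - P1) 0
          rw [hB0, hA0, mul_zero]
        · show (P3 - P1) 1 = ((P3 - P1) 1 / (P2 - P1) 1) * (P2 - P1) 1
          rw [div_mul_cancel₀ _ hA1]
      · refine ⟨(P3 - P1) 0 / (P2 - P1) 0, ?_⟩
        unfold cr at e2
        ext i
        fin_cases i
        · show (P3 - P1) 0 = ((P3 - P1) 0 / (P2 - P1) 0) * (P2 - P1) 0
          rw [div_mul_cancel₀ _ hA0]
        · show (P3 - P1) 1 = ((P3 - P1) 0 / (P2 - P1) 0) * (P2 - P1) 1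
          field_simp
          linarith
    obtain ⟨t, ht⟩ := hcol
    have a13 : inner ℝ (N K P1) (P1 - P3) = t * inner ℝ (N K P1) (P1 - P2) := by
      have : P1 - P3 = t • (P1 - P2) := by
        rw [← neg_sub P3 P1, ht, ← smul_neg, neg_sub]
      rw [this, real_inner_smul_right]
    have a23 : inner ℝ (N K P2) (P2 - P3) = (1 - t) * inner ℝ (N K P2) (P2 - P1) := by
      have : P2 - P3 = (1 - t) • (P2 - P1) := by
        rw [sub_smul, one_smul, ← ht]; abel
      rw [this, real_inner_smul_right]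
    have a31 : inner ℝ (N K P3) (P3 - P1) = t * inner ℝ (N K P3) (P2 - P1) := by
      rw [ht, real_inner_smul_right]
    have a32 : inner ℝ (N K P3) (P3 - P2) = (t - 1) * inner ℝ (N K P3) (P2 - P1) := by
      have : P3 - P2 = (t - 1) • (P2 - P1) := by
        rw [sub_smul, one_smul, ← ht]; abel
      rw [this, real_inner_smul_right]
    rw [a13] at p13
    rw [a23] at p23
    rw [a31] at p31
    rw [a32] at p32
    have t0 : 0 < t := (mul_pos_iff_of_pos_right p12).1 p13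
    have t1 : 0 < 1 - t := (mul_pos_iff_of_pos_right p21).1 p23
    have q1 : 0 < inner ℝ (N K P3) (P2 - P1) := (mul_pos_iff_of_pos_left t0).1 p31
    have q2 : (t - 1) * inner ℝ (N K P3) (P2 - P1) < 0 :=
      mul_neg_of_neg_of_pos (by linarith) q1
    linarith
  · rw [← hc Q]
    unfold phi
    rw [sym_pts hK hT hl h1 hQ, sym_pts hK hT hl h2 hQ, sym_pts hK hT hl h3 hQ]
    simp only [inner_E2, cr, PiLp.sub_apply]
    ring

end Pool.Agent.Y508
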