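import Pool.Agent.Y508.Conic

/-!
A convex body whose boundary lies on a conic is an ellipse.
-/

set_option autoImplicit false
open MeasureTheory Metric Set Filter Topology
open scoped ENNReal

namespace Pool.Agent.Y508

/-- an explicit linear equivalence with triangular matrix -/
noncomputable def tri (a b d : ℝ) (ha : a ≠ 0) (hd : d ≠ 0) : E2 ≃ₗ[ℝ] E2 where
  toFun y := pt (a * y 0 + b * y 1) (d * y 1)
  invFun x := pt ((x 0 - b * (x 1 / d)) / a) (x 1 / d)
  map_add' x y := by
    ext i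
    fin_cases i
    · simp; ring
    · simp; ring
  map_smul' c x := by
    ext i
    fin_cases i
    · simp; ring
    · simp; ring
  left_inv y := by
    ext i
    fin_cases i
    · simp; field_simp; ring
    · simp; field_simp
  right_inv x := by
    ext i
    fin_cases i
    · simp; field_simp; ring
    · simp; field_simp

/-- the sublevel set of a positive definite quadratic polynomial is an ellipse -/
theorem ellipse_of_pd {K : Set E2} (c : Fin 6 → ℝ) (o : E2) (ho : qe c o < 0)
    (h3 : 0 < c 3) (hdet : 0 < 4 * c 3 * c 5 - c 4 ^ 2) (hK : ∀ x, x ∈ K ↔ qe c x ≤ 0) :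
    ∃ f : E2 ≃ᵃ[ℝ] E2, K = f '' closedBall 0 1 := by
  set D := 4 * c 3 * c 5 - c 4 ^ 2 with hD
  -- centre
  set z0 := (-2 * c 5 * c 1 + c 4 * c 2) / D with hz0
  set z1 := (-2 * c 3 * c 2 + c 4 * c 1) / D with hz1
  set R := -(qe c (pt z0 z1)) with hR
  have hc5 : 0 < c 5 := by
    by_contra h
    push Not at h
    nlinarith [sq_nonneg (c 4), mul_nonneg h3.le (neg_nonneg.2 h)]
  have hDne : D ≠ 0 := hdet.ne'
  have hz0' : z0 * D = -2 * c 5 * c 1 + c 4 * c 2 := div_mul_cancel₀ _ hDne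
  have hz1' : z1 * D = -2 * c 3 * c 2 + c 4 * c 1 := div_mul_cancel₀ _ hDne
  have g1 : c 1 + 2 * c 3 * z0 + c 4 * z1 = 0 := by
    have : (c 1 + 2 * c 3 * z0 + c 4 * z1) * D = 0 := by
      calc (c 1 + 2 * c 3 * z0 + c 4 * z1) * D = c 1 * D + 2 * c 3 * (z0 * D) + c 4 * (z1 * D) := by
            ring
        _ = 0 := by rw [hz0', hz1', hD]; ring
    exact (mul_eq_zero.1 this).resolve_right hDne
  have g2 : c 2 + c 4 * z0 + 2 * c 5 * z1 = 0 := by
    have : (c 2 + c 4 * z0 + 2 * c 5 * z1) * D = 0 := by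
      calc (c 2 + c 4 * z0 + 2 * c 5 * z1) * D = c 2 * D + c 4 * (z0 * D) + 2 * c 5 * (z1 * D) := by
            ring
        _ = 0 := by rw [hz0', hz1', hD]; ring
    exact (mul_eq_zero.1 this).resolve_right hDne
  have hexp : ∀ x : E2, qe c x = c 3 * (x 0 - z0) ^ 2 + c 4 * ((x 0 - z0) * (x 1 - z1)) +
      c 5 * (x 1 - z1) ^ 2 - R := by
    intro x
    rw [hR]
    unfold qe
    rw [pt_zero, pt_one]
    linear_combination (x 0 - z0) * g1 + (x 1 - z1) * g2
  have hsq : ∀ u v : ℝ, c 3 * u ^ 2 + c 4 * (u * v) + c 5 * v ^ 2 =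
      c 3 * (u + c 4 / (2 * c 3) * v) ^ 2 + D / (4 * c 3) * v ^ 2 := by
    intro u v
    rw [hD]
    field_simp
    ring
  have hRpos : 0 < R := by
    have h1 := hexp o
    rw [hsq] at h1
    have h2 : 0 ≤ c 3 * ((o 0 - z0) + c 4 / (2 * c 3) * (o 1 - z1)) ^ 2 := by positivity
    have h3 : 0 ≤ D / (4 * c 3) * (o 1 - z1) ^ 2 := by positivity
    linarith
  have hs3 : 0 < Real.sqrt (c 3) := Real.sqrt_pos.2 h3
  have hsR : 0 < Real.sqrt R := Real.sqrt_pos.2 hRpos
  have hDp : 0 < D / (4 * c 3) := by positivity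
  have hsD : 0 < Real.sqrt (D / (4 * c 3)) := Real.sqrt_pos.2 hDp
  set r := Real.sqrt R with hr
  set p := Real.sqrt (c 3) with hp
  set q := Real.sqrt (D / (4 * c 3)) with hq
  have hr2 : r ^ 2 = R := Real.sq_sqrt hRpos.le
  have hp2 : p ^ 2 = c 3 := Real.sq_sqrt h3.le
  have hq2 : q ^ 2 = D / (4 * c 3) := Real.sq_sqrt hDp.le
  have ha : r / p ≠ 0 := (div_pos hsR hs3).ne'
  have hd : r / q ≠ 0 := (div_pos hsR hsD).ne'
  let T := tri (r / p) (-(c 4 / (2 * c 3)) * (r / q)) (r / q) ha hd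
  refine ⟨T.toAffineEquiv.trans (AffineEquiv.constVAdd ℝ E2 (pt z0 z1)), ?_⟩
  have key : ∀ y : E2, qe c (pt z0 z1 + T y) = R * (‖y‖ ^ 2 - 1) := by
    intro y
    have e0 : (pt z0 z1 + T y) 0 - z0 = (r / p) * y 0 + -(c 4 / (2 * c 3)) * (r / q) * y 1 := by
      show (pt z0 z1 0 + (r / p * y 0 + -(c 4 / (2 * c 3)) * (r / q) * y 1)) - z0 = _
      rw [pt_zero]; ring
    have e1 : (pt z0 z1 + T y) 1 - z1 = (r / q) * y 1 := by
      show (pt z0 z1 1 + (r / q * y 1)) - z1 = _
      rw [pt_one]; ring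
    rw [hexp, e0, e1, hsq, norm_sq_E2, ← hq2]
    have e2 : r / p * y 0 + -(c 4 / (2 * c 3)) * (r / q) * y 1 + c 4 / (2 * c 3) * (r / q * y 1) =
        r / p * y 0 := by ring
    rw [e2]
    have e3 : c 3 * (r / p * y 0) ^ 2 = R * y 0 ^ 2 := by
      rw [← hp2, ← hr2]; field_simp
    have e4 : q ^ 2 * (r / q * y 1) ^ 2 = R * y 1 ^ 2 := by
      rw [← hr2]; field_simp
    rw [e3, e4]
    ring
  ext x
  rw [hK]
  constructor
  · intro hx
    refine ⟨T.symm (x - pt z0 z1), ?_, ?_⟩
    · rw [mem_closedBall, dist_zero_right]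
      have h1 := key (T.symm (x - pt z0 z1))
      rw [T.apply_symm_apply, add_sub_cancel] at h1
      rw [h1] at hx
      have h2 : ‖T.symm (x - pt z0 z1)‖ ^ 2 - 1 ≤ 0 := by
        by_contra h
        push Not at h
        have := mul_pos hRpos h
        linarith
      have h3 : ‖T.symm (x - pt z0 z1)‖ ^ 2 ≤ 1 := by linarith
      exact (sq_le_one_iff₀ (norm_nonneg _)).1 h3
    · show pt z0 z1 + T (T.symm (x - pt z0 z1)) = x
      rw [T.apply_symm_apply, add_sub_cancel]
  · rintro ⟨y, hy, rfl⟩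
    show qe c (pt z0 z1 + T y) ≤ 0
    rw [key]
    rw [mem_closedBall, dist_zero_right] at hy
    have : ‖y‖ ^ 2 ≤ 1 := (sq_le_one_iff₀ (norm_nonneg _)).2 hy
    exact mul_nonpos_of_nonneg_of_nonpos hRpos.le (by linarith)

/-- Taylor expansion of a quadratic polynomial -/
theorem qe_taylor (c : Fin 6 → ℝ) (o v : E2) (t : ℝ) : qe c (o + t • v) =
    (c 3 * v 0 ^ 2 + c 4 * (v 0 * v 1) + c 5 * v 1 ^ 2) * t ^ 2 +
    ((c 1 + 2 * c 3 * o 0 + c 4 * o 1) * v 0 + (c 2 + c 4 * o 0 + 2 * c 5 * o 1) * v 1) * t +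
    qe c o := by
  simp [qe]
  ring

/-- the last point of a ray from an interior point -/
theorem ray {K : Set E2} (hK : Body K) {o v : E2} (ho : o ∈ interior K) (hv : v ≠ 0) :
    ∃ t : ℝ, 0 < t ∧ o + t • v ∈ frontier K ∧ ∀ s, 0 ≤ s → (o + s • v ∈ K ↔ s ≤ t) := by
  obtain ⟨t, ht, hf⟩ := exists_last hK.cpt (interior_subset ho) hv
  have ht0 : 0 < t := by
    rcases lt_or_eq_of_le ht with h | h
    · exact h
    · exfalso
      rw [← h, zero_smul, add_zero] at hf
      exact hf.2 ho
  refine ⟨t, ht0, hf, fun s hs => ⟨fun h => ?_, fun h => ?_⟩⟩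
  · by_contra hcon
    push Not at hcon
    apply hf.2
    have h1 : o + t • v = (1 - t / s) • o + (t / s) • (o + s • v) := by
      have hs0 : s ≠ 0 := by linarith
      rw [smul_add, smul_smul, div_mul_cancel₀ _ hs0, sub_smul, one_smul]
      abel
    rw [h1]
    apply hK.cvx.combo_interior_self_mem_interior ho h
    · rw [sub_pos, div_lt_one (by linarith)]; exact hcon
    · positivity
    · ring
  · have hfK : o + t • v ∈ K := hK.cpt.isClosed.frontier_subset hf
    have h1 : o + s • v = (1 - s / t) • o + (s / t) • (o + t • v) := by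
      rw [smul_add, smul_smul, div_mul_cancel₀ _ ht0.ne', sub_smul, one_smul]
      abel
    rw [h1]
    apply hK.cvx (interior_subset ho) hfK
    · rw [sub_nonneg, div_le_one ht0]; exact h
    · positivity
    · ring

theorem conic_ellipse {K : Set E2} (hK : Body K) {c : Fin 6 → ℝ} (hc : c ≠ 0)
    (h : ∀ x ∈ frontier K, qe c x = 0) : ∃ f : E2 ≃ᵃ[ℝ] E2, K = f '' closedBall 0 1 := by
  obtain ⟨o, ho⟩ := hK.int
  set q : E2 → ℝ := fun v => c 3 * v 0 ^ 2 + c 4 * (v 0 * v 1) + c 5 * v 1 ^ 2 with hq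
  set L : E2 → ℝ := fun v => (c 1 + 2 * c 3 * o 0 + c 4 * o 1) * v 0 +
    (c 2 + c 4 * o 0 + 2 * c 5 * o 1) * v 1 with hL
  have hT : ∀ v t, qe c (o + t • v) = q v * t ^ 2 + L v * t + qe c o := fun v t => qe_taylor c o v t
  have hroots : ∀ v : E2, v ≠ 0 → ∃ s t : ℝ, 0 < s ∧ 0 < t ∧ q v * t ^ 2 + L v * t + qe c o = 0 ∧
      q v * s ^ 2 - L v * s + qe c o = 0 ∧ (∀ a, 0 ≤ a → (o + a • v ∈ K ↔ a ≤ t)) := by
    intro v hv
    obtain ⟨t, ht, htf, htk⟩ := ray hK ho hv
    obtain ⟨s, hs, hsf, _⟩ := ray hK ho (neg_ne_zero.2 hv)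
    refine ⟨s, t, hs, ht, ?_, ?_, htk⟩
    · rw [← hT]; exact h _ htf
    · have e : o + s • (-v) = o + (-s) • v := by rw [smul_neg, neg_smul]
      rw [e] at hsf
      have := h _ hsf
      rw [hT] at this
      linarith
  have hk : qe c o ≠ 0 := by
    intro hk
    have hz : ∀ v : E2, v ≠ 0 → q v = 0 ∧ L v = 0 := by
      intro v hv
      obtain ⟨s, t, hs, ht, e1, e2, _⟩ := hroots v hv
      rw [hk] at e1 e2
      have a1 : q v * t + L v = 0 := by
        have : t * (q v * t + L v) = 0 := by linarith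
        exact (mul_eq_zero.1 this).resolve_left ht.ne'
      have a2 : q v * s - L v = 0 := by
        have : s * (q v * s - L v) = 0 := by linarith
        exact (mul_eq_zero.1 this).resolve_left hs.ne'
      have a3 : q v = 0 := by
        have : (s + t) * q v = 0 := by linarith
        exact (mul_eq_zero.1 this).resolve_left (by positivity)
      rw [a3] at a1
      exact ⟨a3, by linarith⟩
    have hne : ∀ x y : ℝ, (x ≠ 0 ∨ y ≠ 0) → pt x y ≠ 0 := by
      intro x y hxy h0
      have e0 : x = 0 := congrArg (fun z : E2 => z 0) h0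
      have e1 : y = 0 := congrArg (fun z : E2 => z 1) h0
      tauto
    have z1 := hz (pt 1 0) (hne _ _ (Or.inl one_ne_zero))
    have z2 := hz (pt 0 1) (hne _ _ (Or.inr one_ne_zero))
    have z3 := hz (pt 1 1) (hne _ _ (Or.inl one_ne_zero))
    simp only [hq, hL, pt_zero, pt_one] at z1 z2 z3
    have c3 : c 3 = 0 := by linarith [z1.1]
    have c5 : c 5 = 0 := by linarith [z2.1]
    have c4 : c 4 = 0 := by linarith [z3.1]
    have c1 : c 1 = 0 := by have := z1.2; rw [c3, c4] at this; linarith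
    have c2 : c 2 = 0 := by have := z2.2; rw [c5, c4] at this; linarith
    have c0 : c 0 = 0 := by
      unfold qe at hk
      rw [c1, c2, c3, c4, c5] at hk
      linarith
    apply hc
    ext i
    fin_cases i <;> assumption
  -- sign of the quadratic part
  have hsgn : ∀ v : E2, v ≠ 0 → 0 < q v * (-(qe c o)⁻¹) := by
    intro v hv
    obtain ⟨s, t, hs, ht, e1, e2, _⟩ := hroots v hv
    have a1 : q v * (s * t) + qe c o = 0 := by
      have : (s + t) * (q v * (s * t) + qe c o) = 0 := by linear_combination s * e1 + t * e2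
      exact (mul_eq_zero.1 this).resolve_left (by positivity)
    have a2 : q v * (-(qe c o)⁻¹) = (s * t)⁻¹ := by
      have a3 : q v * (s * t) = -(qe c o) := by linarith
      field_simp
      linarith
    rw [a2]
    positivity
  -- normalise
  set κ := -(qe c o)⁻¹ with hκ
  have hne : ∀ x y : ℝ, (x ≠ 0 ∨ y ≠ 0) → pt x y ≠ 0 := by
    intro x y hxy h0
    have e0 : x = 0 := congrArg (fun z : E2 => z 0) h0
    have e1 : y = 0 := congrArg (fun z : E2 => z 1) h0
    tauto
  have hc3 : 0 < (κ • c) 3 := by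
    have := hsgn (pt 1 0) (hne _ _ (Or.inl one_ne_zero))
    simp only [hq, pt_zero, pt_one] at this
    simp only [Pi.smul_apply, smul_eq_mul]
    linarith
  have hoκ : qe (κ • c) o = -1 := by
    rw [qe_smul, hκ, neg_mul, inv_mul_cancel₀ hk]
  refine ellipse_of_pd (κ • c) o (by rw [hoκ]; norm_num) hc3 ?_ ?_
  · have hv : pt (-((κ • c) 4)) (2 * (κ • c) 3) ≠ 0 := hne _ _ (Or.inr (by positivity))
    have h1 := hsgn _ hv
    simp only [hq, pt_zero, pt_one] at h1
    have h2 : (c 3 * (-(κ • c) 4) ^ 2 + c 4 * (-(κ • c) 4 * (2 * (κ • c) 3)) +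
        c 5 * (2 * (κ • c) 3) ^ 2) * κ =
        (κ • c) 3 * (4 * (κ • c) 3 * (κ • c) 5 - (κ • c) 4 ^ 2) := by
      simp only [Pi.smul_apply, smul_eq_mul]
      ring
    rw [h2] at h1
    exact (mul_pos_iff_of_pos_left hc3).1 h1
  · intro x
    by_cases hx : x = o
    · rw [hx, hoκ]
      exact ⟨fun _ => by norm_num, fun _ => interior_subset ho⟩
    · have hv : x - o ≠ 0 := sub_ne_zero.2 hx
      obtain ⟨s, t, hs, ht, e1, e2, hmem⟩ := hroots _ hv
      have h1 := hmem 1 zero_le_one
      rw [one_smul, add_sub_cancel] at h1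
      rw [h1]
      have a1 : q (x - o) * (s * t) + qe c o = 0 := by
        have : (s + t) * (q (x - o) * (s * t) + qe c o) = 0 := by
          linear_combination s * e1 + t * e2
        exact (mul_eq_zero.1 this).resolve_left (by positivity)
      have a2 : L (x - o) = q (x - o) * (s - t) := by
        have : (s + t) * (L (x - o) - q (x - o) * (s - t)) = 0 := by
          linear_combination e1 - e2
        have := (mul_eq_zero.1 this).resolve_left (by positivity)
        linarith
      have h2 := hT (x - o) 1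
      rw [one_smul, add_sub_cancel] at h2
      have h3 : qe (κ • c) x = (q (x - o) * κ) * ((1 - t) * (1 + s)) := by
        rw [qe_smul, h2, a2]
        have a3 : qe c o = -(q (x - o) * (s * t)) := by linarith
        rw [a3]
        ring
      rw [h3]
      have h4 := hsgn _ hv
      constructor
      · intro h5
        apply mul_nonpos_of_nonneg_of_nonpos h4.le
        apply mul_nonpos_of_nonpos_of_nonneg (by linarith) (by linarith)
      · intro h5
        by_contra h6
        push Not at h6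
        have := mul_pos h4 (mul_pos (show 0 < 1 - t by linarith) (show 0 < 1 + s by linarith))
        linarith

end Pool.Agent.Y508
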