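import Pool.Agent.Y508.PerimUp

/-!
Lower bound in Cauchy's formula for the perimeter.
-/

set_option autoImplicit false
open MeasureTheory Metric Set Filter Topology
open scoped ENNReal

namespace Pool.Agent.Y508

theorem int_abs_cos : ∫ θ in (0 : ℝ)..(2 * Real.pi), |Real.cos θ| = 4 := by
  have hper : Function.Periodic (fun θ => |Real.cos θ|) (2 * Real.pi) := by
    intro θ
    simp
  have h1 := hper.intervalIntegral_add_eq 0 (-(Real.pi / 2))
  rw [zero_add] at h1
  rw [h1]
  have hpi := Real.pi_pos
  have hc : Continuous (fun θ => |Real.cos θ|) := by fun_prop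
  rw [← intervalIntegral.integral_add_adjacent_intervals (b := Real.pi / 2)
    (hc.intervalIntegrable _ _) (hc.intervalIntegrable _ _)]
  have e1 : ∫ θ in (-(Real.pi / 2))..(Real.pi / 2), |Real.cos θ| =
      ∫ θ in (-(Real.pi / 2))..(Real.pi / 2), Real.cos θ := by
    apply intervalIntegral.integral_congr
    intro θ hθ
    rw [uIcc_of_le (by linarith)] at hθ
    exact abs_of_nonneg (Real.cos_nonneg_of_mem_Icc hθ)
  have e2 : ∫ θ in (Real.pi / 2)..(-(Real.pi / 2) + 2 * Real.pi), |Real.cos θ| =
      ∫ θ in (Real.pi / 2)..(-(Real.pi / 2) + 2 * Real.pi), -Real.cos θ := by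
    apply intervalIntegral.integral_congr
    intro θ hθ
    rw [uIcc_of_le (by linarith)] at hθ
    exact abs_of_nonpos (Real.cos_nonpos_of_pi_div_two_le_of_le hθ.1 (by linarith [hθ.2]))
  rw [e1, e2, integral_cos, intervalIntegral.integral_neg, integral_cos]
  rw [Real.sin_add_two_pi, Real.sin_neg, Real.sin_pi_div_two]
  norm_num

theorem int_abs_ip (v : E2) : ∫ θ in (0 : ℝ)..(2 * Real.pi), |ip v θ| = 4 * ‖v‖ := by
  by_cases hv : v = 0
  · rw [hv]
    simp [ip]
  obtain ⟨a, ha⟩ := exists_pos_ev v hv
  have h1 : ∀ θ, |ip v θ| = ‖v‖ * |Real.cos (θ - a)| := by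
    intro θ
    have : ip v θ = ip (‖v‖ • ev a) θ := by rw [← ha]
    rw [this, ip_smul, ip_ev, abs_mul, abs_norm]
  simp only [h1]
  rw [intervalIntegral.integral_const_mul]
  have h2 : ∫ θ in (0 : ℝ)..(2 * Real.pi), |Real.cos (θ - a)| =
      ∫ θ in (0 - a)..(2 * Real.pi - a), |Real.cos θ| :=
    intervalIntegral.integral_comp_sub_right (fun θ => |Real.cos θ|) a
  have hper : Function.Periodic (fun θ => |Real.cos θ|) (2 * Real.pi) := by
    intro θ
    simp
  have h3 := hper.intervalIntegral_add_eq (0 - a) 0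
  rw [h2]
  have e : 2 * Real.pi - a = 0 - a + 2 * Real.pi := by ring
  rw [e, h3, zero_add, int_abs_cos]
  ring

theorem cyc_sum (s : ℕ → ℝ) (n : ℕ) (h : s n = s 0) {i j : ℕ} (hi : i ≤ n) (hj : j ≤ n) :
    2 * (s i - s j) ≤ ∑ k ∈ Finset.range n, |s (k + 1) - s k| := by
  have key : ∀ i j : ℕ, i ≤ j → j ≤ n → 2 * |s i - s j| ≤ ∑ k ∈ Finset.range n, |s (k + 1) - s k| := by
    intro i j hij hj
    have a1 := dist_le_Ico_sum_dist s (Nat.zero_le i)
    have a2 := dist_le_Ico_sum_dist s hij
    have a3 := dist_le_Ico_sum_dist s hj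
    have e : ∑ k ∈ Finset.range n, |s (k + 1) - s k| =
        ∑ k ∈ Finset.Ico 0 i, dist (s k) (s (k + 1)) + ∑ k ∈ Finset.Ico i j, dist (s k) (s (k + 1)) +
          ∑ k ∈ Finset.Ico j n, dist (s k) (s (k + 1)) := by
      rw [Finset.sum_Ico_consecutive _ (Nat.zero_le i) hij,
        Finset.sum_Ico_consecutive _ (Nat.zero_le j) hj, Finset.range_eq_Ico]
      apply Finset.sum_congr rfl
      intro k _
      rw [dist_comm, Real.dist_eq]
    rw [e]
    rw [Real.dist_eq] at a1 a2 a3
    have a4 : |s i - s j| ≤ |s 0 - s i| + |s j - s n| := by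
      rw [h]
      have : s i - s j = -(s 0 - s i) + (-(s j - s 0)) := by ring
      rw [this]
      refine (abs_add_le _ _).trans ?_
      rw [abs_neg, abs_neg]
    linarith
  rcases le_total i j with hij | hij
  · have := key i j hij hj
    have := le_abs_self (s i - s j)
    linarith
  · have := key j i hij hi
    have := neg_abs_le (s j - s i)
    linarith

/-- length lower bound for an arc -/
theorem arc_ge {c : ℝ → E2} {a b : ℝ} (hab : a ≤ b) (hc : ContinuousOn c (Icc a b)) :
    ENNReal.ofReal ‖c b - c a‖ ≤ (μH[1] : Measure E2) (c '' Ico a b) := by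
  have hl : LipschitzWith 1 (fun y : E2 => dist y (c a)) := LipschitzWith.dist_left (c a)
  have h1 : Ico 0 ‖c b - c a‖ ⊆ (fun y : E2 => dist y (c a)) '' (c '' Ico a b) := by
    have hcont : ContinuousOn (fun t => dist (c t) (c a)) (Icc a b) :=
      (continuous_id.dist continuous_const).comp_continuousOn hc
    have := intermediate_value_Ico hab hcont
    rw [dist_self, dist_eq_norm] at this
    rw [image_image]
    exact this
  calc ENNReal.ofReal ‖c b - c a‖ = (μH[1] : Measure ℝ) (Ico 0 ‖c b - c a‖) := by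
        rw [hausdorffMeasure_real, Real.volume_Ico, sub_zero]
    _ ≤ μH[1] ((fun y : E2 => dist y (c a)) '' (c '' Ico a b)) := measure_mono h1
    _ ≤ ((1 : NNReal) : ℝ≥0∞) ^ (1:ℝ) * μH[1] (c '' Ico a b) :=
      hl.hausdorffMeasure_image_le zero_le_one _
    _ = μH[1] (c '' Ico a b) := by simp

theorem ev_per (θ : ℝ) : ∃ φ ∈ Ico (0 : ℝ) (2 * Real.pi), ev θ = ev φ := by
  have hpi := Real.two_pi_pos
  refine ⟨toIcoMod hpi 0 θ, ?_, ?_⟩
  · have := toIcoMod_mem_Ico hpi 0 θ
    rwa [zero_add] at this
  · have h := toIcoMod_add_toIcoDiv_zsmul hpi 0 θ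
    have e : θ = toIcoMod hpi 0 θ + (toIcoDiv hpi 0 θ : ℤ) * (2 * Real.pi) := by
      rw [← zsmul_eq_mul]; exact h.symm
    conv_lhs => rw [e]
    unfold ev
    rw [Real.cos_add_int_mul_two_pi, Real.sin_add_int_mul_two_pi]

theorem ev_inj {φ ψ : ℝ} (h1 : φ ∈ Ico (0 : ℝ) (2 * Real.pi)) (h2 : ψ ∈ Ico (0 : ℝ) (2 * Real.pi))
    (h : ev φ = ev ψ) : φ = ψ := by
  have c1 : Real.cos φ = Real.cos ψ := congrArg (fun x : E2 => x 0) h
  have c2 : Real.sin φ = Real.sin ψ := congrArg (fun x : E2 => x 1) h
  have c3 : Real.cos (φ - ψ) = 1 := by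
    rw [Real.cos_sub, c1, c2]
    have := Real.sin_sq_add_cos_sq ψ
    nlinarith
  rw [Real.cos_eq_one_iff_of_lt_of_lt] at c3
  · linarith
  · have := h1.1; have := h2.2; linarith
  · have := h1.2; have := h2.1; linarith

/-- a parametrisation of the boundary -/
theorem exists_param {K : Set E2} (hK : Body K) : ∃ c : ℝ → E2, Continuous c ∧
    c (2 * Real.pi) = c 0 ∧ (∀ φ, c φ ∈ frontier K) ∧ InjOn c (Ico 0 (2 * Real.pi)) ∧
    ∀ x ∈ frontier K, ∃ φ ∈ Ico (0 : ℝ) (2 * Real.pi), x = c φ := by
  obtain ⟨o, ho⟩ := hK.int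
  set s : Set E2 := (fun v => o + v) ⁻¹' K with hs
  have hh : ∀ S : Set E2, (fun v => o + v) ⁻¹' S = (Homeomorph.addLeft o) ⁻¹' S := fun S => rfl
  have hint : interior s = (fun v => o + v) ⁻¹' interior K := by
    rw [hs, hh, hh, (Homeomorph.addLeft o).preimage_interior]
  have hfr : frontier s = (fun v => o + v) ⁻¹' frontier K := by
    rw [hs, hh, hh, (Homeomorph.addLeft o).preimage_frontier]
  have hsc : Convex ℝ s := hK.cvx.translate_preimage_right o
  have hs0 : s ∈ 𝓝 (0 : E2) := by
    rw [← mem_interior_iff_mem_nhds, hint]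
    simpa using ho
  have hsb : Bornology.IsBounded s := by
    obtain ⟨R, hR⟩ := hK.cpt.isBounded.exists_norm_le
    rw [isBounded_iff_forall_norm_le]
    refine ⟨R + ‖o‖, fun v hv => ?_⟩
    have h1 := hR _ hv
    have h2 := norm_sub_le (o + v) o
    rw [add_sub_cancel_left] at h2
    linarith
  have hpos : ∀ v : E2, v ≠ 0 → 0 < gauge s v := by
    intro v hv
    rw [gauge_pos (absorbent_nhds_zero hs0)]
    · exact hv
    · exact (NormedSpace.isVonNBounded_iff ℝ).2 hsb
  have hgc : Continuous (gauge s) := continuous_gauge hsc hs0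
  have hev0 : ∀ φ, ev φ ≠ 0 := by
    intro φ h
    have := norm_ev φ
    rw [h, norm_zero] at this
    exact zero_ne_one this
  refine ⟨fun φ => o + (gauge s (ev φ))⁻¹ • ev φ, ?_, ?_, ?_, ?_, ?_⟩
  · apply continuous_const.add
    have hg2 : Continuous (fun φ => (gauge s (ev φ))⁻¹) :=
      (hgc.comp cont_ev).inv₀ fun φ => (hpos _ (hev0 φ)).ne'
    exact hg2.smul cont_ev
  · have : ev (2 * Real.pi) = ev 0 := by
      unfold ev
      simp
    simp only [this]
  · intro φ
    have h1 : gauge s ((gauge s (ev φ))⁻¹ • ev φ) = 1 := by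
      rw [gauge_smul_of_nonneg (inv_nonneg.2 (gauge_nonneg _)), smul_eq_mul,
        inv_mul_cancel₀ (hpos _ (hev0 φ)).ne']
    rw [gauge_eq_one_iff_mem_frontier hsc hs0, hfr] at h1
    exact h1
  · intro φ hφ ψ hψ h
    simp only [add_right_inj] at h
    apply ev_inj hφ hψ
    have h1 := hpos _ (hev0 φ)
    have h2 := hpos _ (hev0 ψ)
    have h3 : ‖(gauge s (ev φ))⁻¹ • ev φ‖ = ‖(gauge s (ev ψ))⁻¹ • ev ψ‖ := by rw [h]
    rw [norm_smul, norm_smul, norm_ev, norm_ev, mul_one, mul_one, Real.norm_eq_abs,
      Real.norm_eq_abs, abs_of_pos (inv_pos.2 h1), abs_of_pos (inv_pos.2 h2)] at h3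
    rw [h3] at h
    exact smul_right_injective _ (inv_pos.2 h2).ne' h
  · intro x hx
    have hx0 : x - o ≠ 0 := by
      intro h
      rw [sub_eq_zero] at h
      rw [h] at hx
      exact hx.2 ho
    obtain ⟨θ, hθ⟩ := exists_pos_ev _ hx0
    obtain ⟨φ, hφ, he⟩ := ev_per θ
    refine ⟨φ, hφ, ?_⟩
    have h1 : gauge s (x - o) = 1 := by
      rw [gauge_eq_one_iff_mem_frontier hsc hs0, hfr]
      simpa using hx
    rw [hθ, he, gauge_smul_of_nonneg (norm_nonneg _), smul_eq_mul] at h1
    have h2 : (gauge s (ev φ))⁻¹ = ‖x - o‖ := (eq_inv_of_mul_eq_one_left h1).symm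
    show x = o + (gauge s (ev φ))⁻¹ • ev φ
    rw [h2, ← he, ← hθ]
    abel

theorem W_shift {K : Set E2} : ∫ θ in (0 : ℝ)..(2 * Real.pi), hs K (θ + Real.pi) = W K := by
  rw [intervalIntegral.integral_comp_add_right (fun θ => hs K θ)]
  have hper : Function.Periodic (hs K) (2 * Real.pi) := hs_two_pi K
  have h3 := hper.intervalIntegral_add_eq (0 + Real.pi) 0
  have e : 2 * Real.pi + Real.pi = 0 + Real.pi + 2 * Real.pi := by ring
  rw [e, h3, zero_add]
  rfl

/-- lower bound in Cauchy's formula, with an error -/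
theorem perim_ge_eps {K : Set E2} (hK : Body K) {ε : ℝ} (hε : 0 < ε) :
    ENNReal.ofReal (W K - 2 * Real.pi * ε) ≤ (μH[1] : Measure E2) (frontier K) := by
  obtain ⟨c, hc, hcp, hcf, hci, hcs⟩ := exists_param hK
  have hpi := Real.pi_pos
  have huc := isCompact_Icc (a := (0 : ℝ)) (b := 2 * Real.pi) |>.uniformContinuousOn_of_continuous
    hc.continuousOn
  rw [Metric.uniformContinuousOn_iff] at huc
  obtain ⟨d, hd, hd'⟩ := huc ε hε
  obtain ⟨n, hn⟩ := exists_nat_gt (2 * Real.pi / d)
  have hn0 : (0 : ℝ) < n := lt_trans (by positivity) hn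
  have hn0' : 0 < n := by exact_mod_cast hn0
  have hnd : 2 * Real.pi / n < d := by
    rw [div_lt_iff₀ hd] at hn
    rw [div_lt_iff₀ hn0]
    linarith
  set a : ℕ → ℝ := fun k => 2 * Real.pi * k / n with ha
  have hstep : ∀ k, a (k + 1) - a k = 2 * Real.pi / n := by
    intro k
    simp only [ha]
    push_cast
    ring
  have ha0 : ∀ k, 0 ≤ a k := by
    intro k; simp only [ha]; positivity
  have han : a n = 2 * Real.pi := by
    simp only [ha]; field_simp
  have hmono : Monotone a := by
    intro i j hij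
    simp only [ha]
    have : (i : ℝ) ≤ j := by exact_mod_cast hij
    gcongr
  have hlt : ∀ k, a k < a (k + 1) := by
    intro k
    have := hstep k
    have h2 : (0 : ℝ) < 2 * Real.pi / n := by positivity
    linarith
  -- the measure of the boundary dominates the length of the inscribed polygon
  have h1 : ∑ k ∈ Finset.range n, ENNReal.ofReal ‖c (a (k + 1)) - c (a k)‖ ≤
      (μH[1] : Measure E2) (frontier K) := by
    calc ∑ k ∈ Finset.range n, ENNReal.ofReal ‖c (a (k + 1)) - c (a k)‖
        ≤ ∑ k ∈ Finset.range n, (μH[1] : Measure E2) (c '' Ico (a k) (a (k + 1))) := by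
          apply Finset.sum_le_sum
          intro k _
          exact arc_ge (hlt k).le hc.continuousOn
      _ = μH[1] (⋃ k ∈ Finset.range n, c '' Ico (a k) (a (k + 1))) := by
          rw [measure_biUnion_finset]
          · intro i hi j hj hij
            have hi' : i < n := by simpa using hi
            have hj' : j < n := by simpa using hj
            apply Set.disjoint_left.2
            rintro x ⟨s, hs, rfl⟩ ⟨t, ht, hst⟩
            have hs2 : s ∈ Ico (0 : ℝ) (2 * Real.pi) :=
              ⟨(ha0 i).trans hs.1, hs.2.trans_le (by rw [← han]; exact hmono (by omega))⟩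
            have ht2 : t ∈ Ico (0 : ℝ) (2 * Real.pi) :=
              ⟨(ha0 j).trans ht.1, ht.2.trans_le (by rw [← han]; exact hmono (by omega))⟩
            have hEq := hci ht2 hs2 hst
            subst hEq
            rcases lt_or_gt_of_ne hij with h | h
            · have : a (i + 1) ≤ a j := hmono (by omega)
              have := hs.2; have := ht.1; linarith
            · have : a (j + 1) ≤ a i := hmono (by omega)
              have := ht.2; have := hs.1; linarith
          · intro k hk
            have hk' : k < n := by simpa using hk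
            apply measurableSet_Ico.image_of_continuousOn_injOn hc.continuousOn
            apply hci.mono
            intro s hs
            exact ⟨(ha0 k).trans hs.1, hs.2.trans_le (by rw [← han]; exact hmono (by omega))⟩
      _ ≤ μH[1] (frontier K) := by
          apply measure_mono
          intro x hx
          simp only [mem_iUnion] at hx
          obtain ⟨k, _, t, _, rfl⟩ := hx
          exact hcf t
  rw [← ENNReal.ofReal_sum_of_nonneg (fun k _ => norm_nonneg _)] at h1
  refine le_trans (ENNReal.ofReal_le_ofReal ?_) h1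
  -- Crofton
  have h2 : ∀ θ, 2 * (hs K θ + hs K (θ + Real.pi) - 2 * ε) ≤
      ∑ k ∈ Finset.range n, |ip (c (a (k + 1)) - c (a k)) θ| := by
    intro θ
    have near : ∀ θ, ∃ i ≤ n, hs K θ - ε ≤ ip (c (a i)) θ := by
      intro θ
      obtain ⟨x, hx, hxe⟩ := exists_hs hK.cpt hK.ne θ
      have hxf : x ∈ frontier K := by
        refine ⟨subset_closure hx, fun hxi => ?_⟩
        obtain ⟨r, hr, hb⟩ := Metric.isOpen_iff.1 isOpen_interior x hxi
        have h1 : x + (r / 2) • ev θ ∈ K := by
          apply interior_subset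
          apply hb
          rw [mem_ball, dist_eq_norm, add_sub_cancel_left, norm_smul, norm_ev, mul_one,
            Real.norm_eq_abs, abs_of_pos (by positivity)]
          linarith
        have h2 := le_hs hK.cpt h1 θ
        rw [ip_add, ip_smul, ip_ev, sub_self, Real.cos_zero, hxe] at h2
        linarith
      obtain ⟨φ, hφ, hxφ⟩ := hcs x hxf
      set i := ⌊φ * n / (2 * Real.pi)⌋₊ with hi
      have hφn : 0 ≤ φ * n / (2 * Real.pi) := by
        have := hφ.1; positivity
      have hi1 := Nat.floor_le hφn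
      have hi2 := Nat.lt_floor_add_one (φ * n / (2 * Real.pi))
      rw [← hi] at hi1 hi2
      have hin : i ≤ n := by
        have : (i : ℝ) ≤ n := by
          refine hi1.trans ?_
          rw [div_le_iff₀ (by positivity)]
          have := hφ.2
          nlinarith
        exact_mod_cast this
      have hdist : dist (a i) φ < d := by
        rw [Real.dist_eq]
        have b1 : a i ≤ φ := by
          simp only [ha]
          rw [div_le_iff₀ hn0]
          rw [le_div_iff₀ (by positivity)] at hi1
          linarith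
        have b2 : φ < a i + 2 * Real.pi / n := by
          simp only [ha]
          rw [← add_div, lt_div_iff₀ hn0]
          rw [div_lt_iff₀ (by positivity)] at hi2
          linarith
        rw [abs_sub_lt_iff]
        constructor <;> linarith
      have hc1 := hd' (a i) ⟨ha0 i, by rw [← han]; exact hmono hin⟩ φ ⟨hφ.1, hφ.2.le⟩ hdist
      refine ⟨i, hin, ?_⟩
      have hc2 := abs_ip_le (c (a i) - c φ) θ
      rw [ip_sub] at hc2
      rw [dist_eq_norm] at hc1
      rw [hxe, hxφ]
      have := neg_abs_le (ip (c (a i)) θ - ip (c φ) θ)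
      linarith
    obtain ⟨i, hi, hi2⟩ := near θ
    obtain ⟨j, hj, hj2⟩ := near (θ + Real.pi)
    rw [ip_add_pi] at hj2
    have h3 := cyc_sum (fun k => ip (c (a k)) θ) n (by
      show ip (c (a n)) θ = ip (c (a 0)) θ
      have : a 0 = 0 := by simp [ha]
      rw [han, this, hcp]) hi hj
    simp only [ip_sub]
    linarith
  have hcw := cont_hs hK.cpt
  have hcw2 : Continuous (fun θ => hs K (θ + Real.pi)) :=
    hcw.comp (continuous_id.add continuous_const)
  have h3 : ∫ θ in (0 : ℝ)..(2 * Real.pi), 2 * (hs K θ + hs K (θ + Real.pi) - 2 * ε) ≤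
      ∫ θ in (0 : ℝ)..(2 * Real.pi), ∑ k ∈ Finset.range n, |ip (c (a (k + 1)) - c (a k)) θ| := by
    apply intervalIntegral.integral_mono_on (by positivity)
    · apply Continuous.intervalIntegrable
      exact continuous_const.mul ((hcw.add hcw2).sub continuous_const)
    · apply Continuous.intervalIntegrable
      exact continuous_finsetSum _ fun k _ => (cont_ip _).abs
    · intro θ _
      exact h2 θ
  rw [intervalIntegral.integral_finsetSum (fun k _ =>
    ((cont_ip _).abs).intervalIntegrable _ _)] at h3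
  simp only [int_abs_ip] at h3
  have h4 : ∫ θ in (0 : ℝ)..(2 * Real.pi), 2 * (hs K θ + hs K (θ + Real.pi) - 2 * ε) =
      2 * (W K + W K - (2 * Real.pi - 0) * (2 * ε)) := by
    rw [intervalIntegral.integral_const_mul]
    have i1 : IntervalIntegrable (fun θ => hs K θ + hs K (θ + Real.pi)) volume 0 (2 * Real.pi) :=
      (hcw.add hcw2).intervalIntegrable _ _
    have i2 : IntervalIntegrable (fun _ : ℝ => 2 * ε) volume 0 (2 * Real.pi) :=
      continuous_const.intervalIntegrable _ _
    rw [intervalIntegral.integral_sub i1 i2,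
      intervalIntegral.integral_add (hcw.intervalIntegrable _ _) (hcw2.intervalIntegrable _ _),
      W_shift, intervalIntegral.integral_const, smul_eq_mul]
    rfl
  rw [h4, ← Finset.mul_sum] at h3
  linarith

theorem perim_ge {K : Set E2} (hK : Body K) :
    ENNReal.ofReal (W K) ≤ (μH[1] : Measure E2) (frontier K) := by
  have h1 : Tendsto (fun ε : ℝ => ENNReal.ofReal (W K - 2 * Real.pi * ε)) (𝓝[>] 0)
      (𝓝 (ENNReal.ofReal (W K - 2 * Real.pi * 0))) := by
    apply (ENNReal.continuous_ofReal.tendsto _).comp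
    apply tendsto_nhdsWithin_of_tendsto_nhds
    have : Continuous (fun ε : ℝ => W K - 2 * Real.pi * ε) := by fun_prop
    exact this.tendsto 0
  rw [mul_zero, sub_zero] at h1
  refine le_of_tendsto h1 ?_
  filter_upwards [self_mem_nhdsWithin] with ε hε
  exact perim_ge_eps hK hε

theorem W_pos {K : Set E2} (hK : Body K) : 0 < W K := by
  have h1 : ∫ θ in (0 : ℝ)..(2 * Real.pi), (hs K θ + hs K (θ + Real.pi)) = 2 * W K := by
    have hcw := cont_hs hK.cpt
    have hcw2 : Continuous (fun θ => hs K (θ + Real.pi)) :=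
      hcw.comp (continuous_id.add continuous_const)
    rw [intervalIntegral.integral_add (hcw.intervalIntegrable _ _) (hcw2.intervalIntegrable _ _),
      W_shift]
    change W K + W K = _
    ring
  have h2 : 0 < ∫ θ in (0 : ℝ)..(2 * Real.pi), (hs K θ + hs K (θ + Real.pi)) := by
    have hcw := cont_hs hK.cpt
    have hcw2 : Continuous (fun θ => hs K (θ + Real.pi)) :=
      hcw.comp (continuous_id.add continuous_const)
    apply intervalIntegral.intervalIntegral_pos_of_pos_on
    · exact (hcw.add hcw2).intervalIntegrable _ _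
    · intro θ _
      exact width_pos hK θ
    · exact Real.two_pi_pos
  linarith

/-- **Cauchy's formula** -/
theorem perim_eq {K : Set E2} (hK : Body K) :
    ((μH[1] : Measure E2) (frontier K)).toReal = W K := by
  rw [le_antisymm (perim_le hK) (perim_ge hK), ENNReal.toReal_ofReal (W_pos hK).le]

end Pool.Agent.Y508
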