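import Pool.Agent.Y508.LF

/-!
The gradient of the perimeter of the hull.
-/

set_option autoImplicit false
open MeasureTheory Metric Set Filter Topology
open scoped ENNReal

namespace Pool.Agent.Y508

/-- visible directions -/
def VS (K : Set E2) (x : E2) : Set ℝ := {θ | hs K θ < ip x θ}

theorem VS_open {K : Set E2} (hK : Body K) (x : E2) : IsOpen (VS K x) :=
  isOpen_lt (cont_hs hK.cpt) (cont_ip x)

/-- directional derivative of `LL` -/
noncomputable def Dg (K : Set E2) (x v : E2) : ℝ :=
  ∫ θ in (0 : ℝ)..(2 * Real.pi), (VS K x).indicator (ip v) θ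

theorem ind_int {K : Set E2} (hK : Body K) (x v : E2) (a b : ℝ) :
    IntervalIntegrable ((VS K x).indicator (ip v)) volume a b := by
  have h := (cont_ip v).intervalIntegrable (μ := volume) a b
  rw [intervalIntegrable_iff] at h ⊢
  exact h.indicator (VS_open hK x).measurableSet

/-- subgradient inequality -/
theorem subgrad {K : Set E2} (hK : Body K) (x y : E2) :
    LL K x + Dg K x (y - x) ≤ LL K y := by
  unfold LL Dg
  rw [← intervalIntegral.integral_add ((cont_max hK x).intervalIntegrable _ _) (ind_int hK _ _ _ _)]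
  apply intervalIntegral.integral_mono_on two_pi_pos'.le
    (((cont_max hK x).intervalIntegrable _ _).add (ind_int hK _ _ _ _))
    ((cont_max hK _).intervalIntegrable _ _)
  intro θ _
  by_cases h : θ ∈ VS K x
  · rw [indicator_of_mem h, ip_sub]
    have h' : hs K θ < ip x θ := h
    rw [max_eq_right h'.le]
    have := le_max_right (hs K θ) (ip y θ)
    linarith
  · rw [indicator_of_notMem h, add_zero]
    have h' : ip x θ ≤ hs K θ := not_lt.1 h
    rw [max_eq_left h']
    exact le_max_left _ _

/-- linearity of `Dg` -/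
theorem Dg_lin {K : Set E2} (hK : Body K) (x v w : E2) (a b : ℝ) :
    Dg K x (a • v + b • w) = a * Dg K x v + b * Dg K x w := by
  unfold Dg
  rw [← intervalIntegral.integral_const_mul, ← intervalIntegral.integral_const_mul,
    ← intervalIntegral.integral_add ((ind_int hK x v _ _).const_mul _)
      ((ind_int hK x w _ _).const_mul _)]
  congr 1
  ext θ
  by_cases h : θ ∈ VS K x
  · simp only [indicator_of_mem h, ip_add, ip_smul]
  · simp only [indicator_of_notMem h]; ring

theorem Dg_smul {K : Set E2} (hK : Body K) (x v : E2) (a : ℝ) :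
    Dg K x (a • v) = a * Dg K x v := by
  have := Dg_lin hK x v 0 a 0
  simpa using this

theorem Dg_neg {K : Set E2} (hK : Body K) (x v : E2) : Dg K x (-v) = - Dg K x v := by
  have := Dg_smul hK x v (-1)
  simpa using this

/-- a symmetric description of the visible arc -/
structure Vis (M : Set E2) (X : E2) (m δ : ℝ) : Prop where
  δ0 : 0 < δ
  δ1 : δ < Real.pi / 2
  lo : hs M (m - δ) = ip X (m - δ)
  hi : hs M (m + δ) = ip X (m + δ)
  pos : ∀ θ, m - δ < θ → θ < m + δ → hs M θ < ip X θ
  neg : ∀ θ, m + δ < θ → θ < m - δ + 2 * Real.pi → ip X θ < hs M θ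

theorem Vis.of_arc {M : Set E2} {X : E2} {α β : ℝ} (h0 : α < β) (h1 : β - α < Real.pi)
    (h2 : hs M α = ip X α) (h3 : hs M β = ip X β)
    (h4 : ∀ θ, α < θ → θ < β → hs M θ < ip X θ)
    (h5 : ∀ θ, β < θ → θ < α + 2 * Real.pi → ip X θ < hs M θ) :
    Vis M X ((α + β) / 2) ((β - α) / 2) := by
  have e1 : (α + β) / 2 - (β - α) / 2 = α := by ring
  have e2 : (α + β) / 2 + (β - α) / 2 = β := by ring
  refine ⟨by linarith, by linarith, ?_, ?_, ?_, ?_⟩
  · rw [e1]; exact h2
  · rw [e2]; exact h3
  · rw [e1, e2]; exact h4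
  · rw [e1, e2]; exact h5

theorem exists_Vis {M : Set E2} (hM : Body M) {X : E2} (hX : X ∉ M) : ∃ m δ, Vis M X m δ := by
  obtain ⟨θ, hθ⟩ := sep hM.cpt hM.cvx hM.ne hX
  obtain ⟨α, β, h1, h2, h3, h4, h5, h6, h7⟩ := vis hM hθ
  exact ⟨_, _, Vis.of_arc (h1.trans h2) h3 h4 h5 h6 h7⟩

theorem Vis.shift {M : Set E2} {X : E2} {m δ : ℝ} (h : Vis M X m δ) (k : ℤ) :
    Vis M X (m + k * (2 * Real.pi)) δ := by
  refine ⟨h.δ0, h.δ1, ?_, ?_, ?_, ?_⟩
  · have e : m + k * (2 * Real.pi) - δ = (m - δ) + k * (2 * Real.pi) := by ring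
    rw [e, hs_per, ip_per]; exact h.lo
  · have e : m + k * (2 * Real.pi) + δ = (m + δ) + k * (2 * Real.pi) := by ring
    rw [e, hs_per, ip_per]; exact h.hi
  · intro θ h1 h2
    have := h.pos (θ - k * (2 * Real.pi)) (by linarith) (by linarith)
    rw [← hs_per M _ k, ← ip_per X _ k, sub_add_cancel] at this
    exact this
  · intro θ h1 h2
    have := h.neg (θ - k * (2 * Real.pi)) (by linarith) (by linarith)
    rw [← hs_per M _ k, ← ip_per X _ k, sub_add_cancel] at this
    exact this

theorem per_ind (K : Set E2) (x v : E2) :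
    Function.Periodic ((VS K x).indicator (ip v)) (2 * Real.pi) := by
  intro θ
  by_cases h : θ ∈ VS K x
  · have h' : θ + 2 * Real.pi ∈ VS K x := by
      show hs K (θ + 2 * Real.pi) < ip x (θ + 2 * Real.pi)
      rw [hs_two_pi, ip_two_pi]; exact h
    rw [indicator_of_mem h, indicator_of_mem h', ip_two_pi]
  · have h' : θ + 2 * Real.pi ∉ VS K x := by
      intro h2
      apply h
      have h3 : hs K (θ + 2 * Real.pi) < ip x (θ + 2 * Real.pi) := h2
      rw [hs_two_pi, ip_two_pi] at h3; exact h3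
    rw [indicator_of_notMem h, indicator_of_notMem h']

theorem Dg_shift (K : Set E2) (x v : E2) (a : ℝ) :
    Dg K x v = ∫ θ in a..(a + 2 * Real.pi), (VS K x).indicator (ip v) θ := by
  have := (per_ind K x v).intervalIntegral_add_eq 0 a
  rw [zero_add] at this
  exact this

/-- formula for the gradient -/
theorem Vis.Dg_eq {M : Set E2} (hM : Body M) {X : E2} {m δ : ℝ} (h : Vis M X m δ) (v : E2) :
    Dg M X v = 2 * Real.sin δ * ip v m := by
  have hpi := Real.pi_pos
  have h0 := h.δ0
  have h1 := h.δ1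
  rw [Dg_shift M X v (m - δ), ← intervalIntegral.integral_add_adjacent_intervals (b := m + δ)
    (ind_int hM _ _ _ _) (ind_int hM _ _ _ _)]
  have e1 : ∫ θ in (m - δ)..(m + δ), (VS M X).indicator (ip v) θ =
      ∫ θ in (m - δ)..(m + δ), ip v θ := by
    apply intervalIntegral.integral_congr_Ioo_of_le (by linarith)
    intro θ hθ
    exact indicator_of_mem (show θ ∈ VS M X from h.pos θ hθ.1 hθ.2) _
  have e2 : ∫ θ in (m + δ)..(m - δ + 2 * Real.pi), (VS M X).indicator (ip v) θ =
      ∫ θ in (m + δ)..(m - δ + 2 * Real.pi), (0 : ℝ) := by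
    apply intervalIntegral.integral_congr_Ioo_of_le (by linarith)
    intro θ hθ
    exact indicator_of_notMem (show θ ∉ VS M X from not_lt.2 (h.neg θ hθ.1 hθ.2).le) _
  rw [e1, e2, intervalIntegral.integral_zero, add_zero]
  unfold ip
  rw [intervalIntegral.integral_add, intervalIntegral.integral_const_mul,
    intervalIntegral.integral_const_mul, integral_cos, integral_sin]
  · rw [Real.sin_add, Real.sin_sub, Real.cos_sub, Real.cos_add]
    ring
  · apply Continuous.intervalIntegrable; fun_prop
  · apply Continuous.intervalIntegrable; fun_prop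

/-- continuity of the gradient off the body -/
theorem Dg_cont {K : Set E2} (hK : Body K) {x : E2} (hx : x ∉ K) (v : E2) :
    ContinuousAt (fun y => Dg K y v) x := by
  obtain ⟨m, δ, h⟩ := exists_Vis hK hx
  have hpi := Real.pi_pos
  have h0 := h.δ0
  have h1 := h.δ1
  have e : (fun y => Dg K y v) = fun y =>
      ∫ θ in (m - δ)..(m - δ + 2 * Real.pi), (VS K y).indicator (ip v) θ := by
    ext y
    exact Dg_shift K y v (m - δ)
  rw [e]
  apply intervalIntegral.continuousAt_of_dominated_interval (bound := fun θ => ‖v‖)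
  · refine Eventually.of_forall fun y => ?_
    exact ((cont_ip v).aestronglyMeasurable).indicator (VS_open hK y).measurableSet
  · refine Eventually.of_forall fun y => Eventually.of_forall fun θ _ => ?_
    refine (norm_indicator_le_norm_self _ _).trans ?_
    exact abs_ip_le v θ
  · exact continuous_const.intervalIntegrable _ _
  · have hn : ∀ᵐ θ : ℝ, θ ≠ m + δ ∧ θ ≠ m - δ + 2 * Real.pi := by
      rw [ae_iff]
      have : {a : ℝ | ¬(a ≠ m + δ ∧ a ≠ m - δ + 2 * Real.pi)} ⊆ {m + δ, m - δ + 2 * Real.pi} := by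
        intro a ha
        simp only [mem_insert_iff, mem_singleton_iff]
        by_contra hc
        push Not at hc
        exact ha hc
      exact measure_mono_null this ((Set.toFinite _).measure_zero _)
    filter_upwards [hn] with θ hθ hmem
    rw [uIoc_of_le (by linarith)] at hmem
    have hlt : θ < m - δ + 2 * Real.pi := lt_of_le_of_ne hmem.2 hθ.2
    rcases lt_or_gt_of_ne hθ.1 with h2 | h2
    · have h3 := h.pos θ hmem.1 h2
      have h4 : ∀ᶠ y in 𝓝 x, hs K θ < ip y θ :=
        (cont_in θ).continuousAt.eventually (lt_mem_nhds h3)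
      have h5 : (fun y => (VS K y).indicator (ip v) θ) =ᶠ[𝓝 x] fun _ => ip v θ := by
        filter_upwards [h4] with y hy
        exact indicator_of_mem (show θ ∈ VS K y from hy) _
      exact (continuousAt_const).congr h5.symm
    · have h3 := h.neg θ h2 hlt
      have h4 : ∀ᶠ y in 𝓝 x, ip y θ < hs K θ :=
        (cont_in θ).continuousAt.eventually (gt_mem_nhds h3)
      have h5 : (fun y => (VS K y).indicator (ip v) θ) =ᶠ[𝓝 x] fun _ => 0 := by
        filter_upwards [h4] with y hy
        exact indicator_of_notMem (show θ ∉ VS K y from not_lt.2 hy.le) _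
      exact (continuousAt_const).congr h5.symm

/-- the gradient -/
noncomputable def G (K : Set E2) (x : E2) : E2 := pt (Dg K x (pt 1 0)) (Dg K x (pt 0 1))

theorem Dg_eq_inner {K : Set E2} (hK : Body K) (x v : E2) : Dg K x v = inner ℝ (G K x) v := by
  have h := Dg_lin hK x (pt 1 0) (pt 0 1) (v 0) (v 1)
  have e : v = v 0 • pt 1 0 + v 1 • pt 0 1 := by
    ext i
    fin_cases i <;> simp
  rw [← e] at h
  rw [h, inner_E2]
  simp [G]
  ring

theorem cont_pt : Continuous (fun p : ℝ × ℝ => pt p.1 p.2) := by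
  unfold pt
  have h : Continuous fun p : ℝ × ℝ => (![p.1, p.2] : Fin 2 → ℝ) := by
    refine continuous_pi fun i => ?_
    fin_cases i
    · exact continuous_fst
    · exact continuous_snd
  exact (PiLp.continuous_toLp 2 _).comp h

theorem G_cont {K : Set E2} (hK : Body K) {x : E2} (hx : x ∉ K) : ContinuousAt (G K) x := by
  have h1 := Dg_cont hK hx (pt 1 0)
  have h2 := Dg_cont hK hx (pt 0 1)
  exact cont_pt.continuousAt.comp (h1.prodMk h2)

theorem Vis.G_eq {M : Set E2} (hM : Body M) {X : E2} {m δ : ℝ} (h : Vis M X m δ) :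
    G M X = (2 * Real.sin δ) • ev m := by
  unfold G
  rw [h.Dg_eq hM, h.Dg_eq hM]
  ext i
  fin_cases i <;> simp [ip]

theorem Vis.sin_pos {M : Set E2} {X : E2} {m δ : ℝ} (h : Vis M X m δ) : 0 < Real.sin δ :=
  Real.sin_pos_of_pos_of_lt_pi h.δ0 (by have := h.δ1; have := Real.pi_pos; linarith)

theorem G_ne_zero {K : Set E2} (hK : Body K) {x : E2} (hx : x ∉ K) : 0 < ‖G K x‖ := by
  obtain ⟨m, δ, h⟩ := exists_Vis hK hx
  rw [h.G_eq hK, norm_smul, norm_ev, mul_one, Real.norm_eq_abs, abs_of_pos]
  · have := h.sin_pos; linarith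
  · have := h.sin_pos; linarith

theorem Vis.norm_G {M : Set E2} (hM : Body M) {X : E2} {m δ : ℝ} (h : Vis M X m δ) :
    ‖G M X‖ = 2 * Real.sin δ := by
  rw [h.G_eq hM, norm_smul, norm_ev, mul_one, Real.norm_eq_abs, abs_of_pos]
  have := h.sin_pos; linarith

/-- decrease in a descent direction -/
theorem descent {K : Set E2} (hK : Body K) {x : E2} (hx : x ∉ K) {v : E2}
    (hv : inner ℝ (G K x) v < 0) : ∀ᶠ t in 𝓝[>] (0 : ℝ), LL K (x + t • v) < LL K x := by
  have h1 : ContinuousAt (fun t : ℝ => inner ℝ (G K (x + t • v)) v) 0 := by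
    have h2 : ContinuousAt (fun t : ℝ => G K (x + t • v)) 0 := by
      apply ContinuousAt.comp (g := G K)
      · simp only [zero_smul, add_zero]; exact G_cont hK hx
      · fun_prop
    exact h2.inner continuousAt_const
  have h3 : ∀ᶠ t in 𝓝 (0 : ℝ), inner ℝ (G K (x + t • v)) v < 0 := by
    have h0 : inner ℝ (G K (x + (0 : ℝ) • v)) v < 0 := by simpa using hv
    exact h1.eventually (gt_mem_nhds h0)
  filter_upwards [h3.filter_mono nhdsWithin_le_nhds, self_mem_nhdsWithin] with t ht1 ht2
  have ht : 0 < t := ht2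
  have h4 := subgrad hK (x + t • v) x
  have e : x - (x + t • v) = (-t) • v := by
    rw [neg_smul]; abel
  rw [e, Dg_smul hK, Dg_eq_inner hK] at h4
  have h5 := mul_neg_of_pos_of_neg ht ht1
  linarith

theorem ascent {K : Set E2} (hK : Body K) {x v : E2} (hv : 0 < inner ℝ (G K x) v) {t : ℝ}
    (ht : 0 < t) : LL K x < LL K (x + t • v) := by
  have h4 := subgrad hK x (x + t • v)
  rw [add_sub_cancel_left, Dg_smul hK, Dg_eq_inner hK] at h4
  have := mul_pos ht hv
  linarith

end Pool.Agent.Y508
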