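import Pool.Agent.Y508.PerimLow

/-!
The perimeter of the convex hull of a convex body and a point.
-/

set_option autoImplicit false
open MeasureTheory Metric Set Filter Topology
open scoped ENNReal

namespace Pool.Agent.Y508

theorem hull_eq_image {K : Set E2} (hK : Body K) (x : E2) : convexHull ℝ (insert x K) =
    (fun p : ℝ × E2 => (1 - p.1) • x + p.1 • p.2) '' (Icc (0 : ℝ) 1 ×ˢ K) := by
  ext z
  rw [convexHull_insert hK.ne, hK.cvx.convexHull_eq, mem_convexJoin]
  constructor
  · rintro ⟨a, ha, b, hb, hz⟩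
    rw [mem_singleton_iff] at ha
    subst ha
    rw [segment_eq_image] at hz
    obtain ⟨t, ht, rfl⟩ := hz
    exact ⟨(t, b), ⟨ht, hb⟩, rfl⟩
  · rintro ⟨⟨t, b⟩, ⟨ht, hb⟩, rfl⟩
    refine ⟨x, mem_singleton _, b, hb, ?_⟩
    rw [segment_eq_image]
    exact ⟨t, ht, rfl⟩

theorem hull_body {K : Set E2} (hK : Body K) (x : E2) : Body (convexHull ℝ (insert x K)) := by
  refine ⟨?_, convex_convexHull ℝ _, ?_⟩
  · rw [hull_eq_image hK]
    apply (isCompact_Icc.prod hK.cpt).image
    fun_prop
  · exact hK.int.mono (interior_mono ((subset_insert _ _).trans (subset_convexHull ℝ _)))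

theorem hs_hull {K : Set E2} (hK : Body K) (x : E2) (θ : ℝ) :
    hs (convexHull ℝ (insert x K)) θ = max (hs K θ) (ip x θ) := by
  have hb := hull_body hK x
  apply le_antisymm
  · apply hs_le hb.ne
    intro z hz
    rw [hull_eq_image hK] at hz
    obtain ⟨⟨t, b⟩, ⟨ht, hb⟩, rfl⟩ := hz
    simp only [ip_add, ip_smul]
    have h1 := le_hs hK.cpt hb θ
    have h2 := le_max_left (hs K θ) (ip x θ)
    have h3 := le_max_right (hs K θ) (ip x θ)
    have h4 : (1 - t) * ip x θ ≤ (1 - t) * max (hs K θ) (ip x θ) :=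
      mul_le_mul_of_nonneg_left h3 (by linarith [ht.2])
    have h5 : t * ip b θ ≤ t * max (hs K θ) (ip x θ) :=
      mul_le_mul_of_nonneg_left (h1.trans h2) ht.1
    linarith
  · apply max_le
    · exact hs_mono hb.cpt hK.ne ((subset_insert _ _).trans (subset_convexHull ℝ _)) θ
    · exact le_hs hb.cpt (subset_convexHull ℝ _ (mem_insert _ _)) θ

/-- perimeter of the hull of `K` and `x` -/
noncomputable def LL (K : Set E2) (x : E2) : ℝ :=
  ∫ θ in (0 : ℝ)..(2 * Real.pi), max (hs K θ) (ip x θ)

theorem perim_hull {K : Set E2} (hK : Body K) (x : E2) :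
    ((μH[1] : Measure E2) (frontier (convexHull ℝ (insert x K)))).toReal = LL K x := by
  rw [perim_eq (hull_body hK x)]
  unfold W LL
  simp only [hs_hull hK]

theorem cont_max {K : Set E2} (hK : Body K) (x : E2) :
    Continuous (fun θ => max (hs K θ) (ip x θ)) := (cont_hs hK.cpt).max (cont_ip x)

theorem LL_of_mem {K : Set E2} (hK : Body K) {x : E2} (hx : x ∈ K) : LL K x = W K := by
  unfold LL W
  congr 1
  ext θ
  exact max_eq_left (le_hs hK.cpt hx θ)

theorem two_pi_pos' : (0 : ℝ) < 2 * Real.pi := Real.two_pi_pos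

/-- strict monotonicity of integrals of continuous periodic functions -/
theorem int_lt {f g : ℝ → ℝ} (hf : Continuous f) (hg : Continuous g)
    (pf : Function.Periodic f (2 * Real.pi)) (pg : Function.Periodic g (2 * Real.pi))
    (hle : ∀ θ, f θ ≤ g θ) {θ₀ : ℝ} (hlt : f θ₀ < g θ₀) :
    ∫ θ in (0 : ℝ)..(2 * Real.pi), f θ < ∫ θ in (0 : ℝ)..(2 * Real.pi), g θ := by
  have h1 := pf.intervalIntegral_add_eq 0 θ₀
  have h2 := pg.intervalIntegral_add_eq 0 θ₀
  rw [zero_add] at h1 h2
  rw [h1, h2]
  have := two_pi_pos'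
  apply intervalIntegral.integral_lt_integral_of_continuousOn_of_le_of_exists_lt (by linarith)
    hf.continuousOn hg.continuousOn (fun θ _ => hle θ)
  exact ⟨θ₀, ⟨le_refl _, by linarith⟩, hlt⟩

theorem per_hs (K : Set E2) : Function.Periodic (hs K) (2 * Real.pi) := hs_two_pi K
theorem per_ip (x : E2) : Function.Periodic (ip x) (2 * Real.pi) := ip_two_pi x

theorem per_max (K : Set E2) (x : E2) :
    Function.Periodic (fun θ => max (hs K θ) (ip x θ)) (2 * Real.pi) := by
  intro θ
  simp only [hs_two_pi, ip_two_pi]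

theorem lt_LL {K : Set E2} (hK : Body K) {x : E2} (hx : x ∉ K) : W K < LL K x := by
  obtain ⟨θ, hθ⟩ := sep hK.cpt hK.cvx hK.ne hx
  apply int_lt (cont_hs hK.cpt) (cont_max hK x) (per_hs K) (per_max K x)
    (fun θ => le_max_left _ _) (θ₀ := θ)
  exact hθ.trans_le (le_max_right _ _)

theorem W_le_LL {K : Set E2} (hK : Body K) (x : E2) : W K ≤ LL K x := by
  by_cases hx : x ∈ K
  · exact (LL_of_mem hK hx).ge
  · exact (lt_LL hK hx).le

theorem mem_iff_LL {K : Set E2} (hK : Body K) {x : E2} : x ∈ K ↔ LL K x ≤ W K := by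
  constructor
  · intro h; exact (LL_of_mem hK h).le
  · intro h
    by_contra h2
    exact absurd (lt_LL hK h2) (not_lt.2 h)

theorem LL_lip {K : Set E2} (hK : Body K) (x y : E2) :
    |LL K x - LL K y| ≤ 2 * Real.pi * ‖x - y‖ := by
  unfold LL
  rw [← intervalIntegral.integral_sub ((cont_max hK x).intervalIntegrable _ _)
    ((cont_max hK y).intervalIntegrable _ _)]
  have := intervalIntegral.norm_integral_le_of_norm_le_const (a := 0) (b := 2 * Real.pi)
    (f := fun θ => max (hs K θ) (ip x θ) - max (hs K θ) (ip y θ)) (C := ‖x - y‖) (by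
      intro θ _
      rw [Real.norm_eq_abs]
      rw [max_comm (hs K θ) (ip x θ), max_comm (hs K θ) (ip y θ)]
      refine (abs_max_sub_max_le_abs (ip x θ) (ip y θ) (hs K θ)).trans ?_
      rw [← ip_sub]
      exact abs_ip_le _ _)
  rw [sub_zero, abs_of_pos two_pi_pos', Real.norm_eq_abs] at this
  linarith

theorem cont_LL {K : Set E2} (hK : Body K) : Continuous (LL K) := by
  have : LipschitzWith (Real.toNNReal (2 * Real.pi)) (LL K) := by
    apply LipschitzWith.of_dist_le_mul
    intro x y
    rw [Real.dist_eq, dist_eq_norm, Real.coe_toNNReal _ two_pi_pos'.le]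
    exact LL_lip hK x y
  exact this.continuous

theorem LL_conv {K : Set E2} (hK : Body K) (x y : E2) {a b : ℝ} (ha : 0 ≤ a) (hb : 0 ≤ b)
    (hab : a + b = 1) : LL K (a • x + b • y) ≤ a * LL K x + b * LL K y := by
  unfold LL
  rw [← intervalIntegral.integral_const_mul, ← intervalIntegral.integral_const_mul,
    ← intervalIntegral.integral_add (((cont_max hK x).intervalIntegrable _ _).const_mul _)
      (((cont_max hK y).intervalIntegrable _ _).const_mul _)]
  apply intervalIntegral.integral_mono_on two_pi_pos'.le ((cont_max hK _).intervalIntegrable _ _)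
    ((((cont_max hK x).intervalIntegrable _ _).const_mul _).add
      (((cont_max hK y).intervalIntegrable _ _).const_mul _))
  intro θ _
  have h1 := le_max_left (hs K θ) (ip x θ)
  have h2 := le_max_right (hs K θ) (ip x θ)
  have h3 := le_max_left (hs K θ) (ip y θ)
  have h4 := le_max_right (hs K θ) (ip y θ)
  apply max_le
  · calc hs K θ = a * hs K θ + b * hs K θ := by rw [← add_mul, hab, one_mul]
      _ ≤ _ := add_le_add (mul_le_mul_of_nonneg_left h1 ha) (mul_le_mul_of_nonneg_left h3 hb)
  · rw [ip_add, ip_smul, ip_smul]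
    exact add_le_add (mul_le_mul_of_nonneg_left h2 ha) (mul_le_mul_of_nonneg_left h4 hb)

theorem int_ip (x : E2) : ∫ θ in (0 : ℝ)..(2 * Real.pi), ip x θ = 0 := by
  unfold ip
  rw [intervalIntegral.integral_add, intervalIntegral.integral_const_mul,
    intervalIntegral.integral_const_mul, integral_cos, integral_sin]
  · simp
  · apply Continuous.intervalIntegrable; fun_prop
  · apply Continuous.intervalIntegrable; fun_prop

/-- coercivity -/
theorem LL_ge {K : Set E2} (hK : Body K) {R : ℝ} (hR : ∀ y ∈ K, ‖y‖ ≤ R) (x : E2) :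
    2 * ‖x‖ - 2 * Real.pi * R ≤ LL K x := by
  have hb : ∀ θ, -R ≤ hs K θ := by
    intro θ
    obtain ⟨y, hy⟩ := hK.ne
    have h1 := le_hs hK.cpt hy θ
    have h2 := neg_abs_le (ip y θ)
    have h3 := abs_ip_le y θ
    have h4 := hR y hy
    linarith
  have hR0 : 0 ≤ R := by
    obtain ⟨y, hy⟩ := hK.ne
    exact (norm_nonneg y).trans (hR y hy)
  have h1 : ∫ θ in (0 : ℝ)..(2 * Real.pi), ((1 / 2) * (ip x θ + |ip x θ|) - R) ≤ LL K x := by
    unfold LL
    have hc : Continuous (fun θ => (1 / 2) * (ip x θ + |ip x θ|) - R) := by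
      have := cont_ip x
      fun_prop
    apply intervalIntegral.integral_mono_on two_pi_pos'.le (hc.intervalIntegrable _ _)
      ((cont_max hK _).intervalIntegrable _ _)
    intro θ _
    rcases le_total 0 (ip x θ) with h | h
    · rw [abs_of_nonneg h]
      have := le_max_right (hs K θ) (ip x θ)
      linarith
    · rw [abs_of_nonpos h]
      have := le_max_left (hs K θ) (ip x θ)
      have := hb θ
      linarith
  have h2 : ∫ θ in (0 : ℝ)..(2 * Real.pi), ((1 / 2) * (ip x θ + |ip x θ|) - R) =
      2 * ‖x‖ - 2 * Real.pi * R := by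
    have c1 := cont_ip x
    have c2 : Continuous (fun θ => (1 / 2) * (ip x θ + |ip x θ|)) := by fun_prop
    rw [intervalIntegral.integral_sub (c2.intervalIntegrable _ _)
      (continuous_const.intervalIntegrable _ _), intervalIntegral.integral_const_mul,
      intervalIntegral.integral_add (c1.intervalIntegrable _ _) (c1.abs.intervalIntegrable _ _),
      int_ip, int_abs_ip, intervalIntegral.integral_const, smul_eq_mul]
    ring
  linarith

/-- sublevel sets -/
def Kl (K : Set E2) (l : ℝ) : Set E2 := {x | LL K x ≤ l}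

theorem Kl_body {K : Set E2} (hK : Body K) {l : ℝ} (hl : W K ≤ l) : Body (Kl K l) := by
  refine ⟨?_, ?_, ?_⟩
  · have hcl : IsClosed (Kl K l) := isClosed_le (cont_LL hK) continuous_const
    apply Metric.isCompact_of_isClosed_isBounded hcl
    obtain ⟨R, hR⟩ := hK.cpt.isBounded.exists_norm_le
    rw [isBounded_iff_forall_norm_le]
    refine ⟨(l + 2 * Real.pi * R) / 2, fun x hx => ?_⟩
    have h1 := LL_ge hK hR x
    have h2 : LL K x ≤ l := hx
    linarith
  · intro x hx y hy a b ha hb hab
    have h1 := LL_conv hK x y ha hb hab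
    have h2 : LL K x ≤ l := hx
    have h3 : LL K y ≤ l := hy
    show LL K (a • x + b • y) ≤ l
    calc LL K (a • x + b • y) ≤ a * LL K x + b * LL K y := h1
      _ ≤ a * l + b * l := add_le_add (mul_le_mul_of_nonneg_left h2 ha)
        (mul_le_mul_of_nonneg_left h3 hb)
      _ = l := by rw [← add_mul, hab, one_mul]
  · refine hK.int.mono (interior_mono fun x hx => ?_)
    show LL K x ≤ l
    rw [LL_of_mem hK hx]
    exact hl

theorem sub_Kl {K : Set E2} (hK : Body K) {l : ℝ} (hl : W K ≤ l) : K ⊆ Kl K l := by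
  intro x hx
  show LL K x ≤ l
  rw [LL_of_mem hK hx]
  exact hl

/-! ### visible arcs -/

/-- structure of the set of directions in which `X` lies outside of `M` -/
theorem vis {M : Set E2} (hM : Body M) {X : E2} {m : ℝ} (hm : hs M m < ip X m) :
    ∃ α β : ℝ, α < m ∧ m < β ∧ β - α < Real.pi ∧ hs M α = ip X α ∧ hs M β = ip X β ∧
      (∀ θ, α < θ → θ < β → hs M θ < ip X θ) ∧
      (∀ θ, β < θ → θ < α + 2 * Real.pi → ip X θ < hs M θ) := by
  have hpi := Real.pi_pos
  set D : ℝ → ℝ := fun θ => ip X θ - hs M θ with hD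
  have hDc : Continuous D := (cont_ip X).sub (cont_hs hM.cpt)
  have hper : ∀ θ, D (θ + 2 * Real.pi) = D θ := by
    intro θ; simp only [hD, hs_two_pi, ip_two_pi]
  have hanti : ∀ θ, D θ + D (θ + Real.pi) < 0 := by
    intro θ
    have := width_pos hM θ
    simp only [hD, ip_add_pi]
    linarith
  have harc : ∀ a b θ, 0 ≤ Real.sin (b - θ) → 0 ≤ Real.sin (θ - a) →
      Real.sin (b - θ) * D a + Real.sin (θ - a) * D b ≤ Real.sin (b - a) * D θ := by
    intro a b θ h1 h2
    have h3 := hs_arc hM.cpt hM.ne (a := a) (b := b) h1 h2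
    have h4 := ip_arc X a b θ
    simp only [hD, mul_sub]
    linarith
  have hDm : 0 < D m := by simp only [hD]; linarith
  have hDp : D (m + Real.pi) < 0 := by have := hanti m; linarith
  have hDn : D (m - Real.pi) < 0 := by
    have := hper (m - Real.pi)
    have e : m - Real.pi + 2 * Real.pi = m + Real.pi := by ring
    rw [e] at this
    linarith
  -- the first zero to the right
  set S : Set ℝ := {θ | θ ∈ Icc m (m + Real.pi) ∧ D θ ≤ 0} with hS
  have hScl : IsClosed S := isClosed_Icc.inter (isClosed_le hDc continuous_const)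
  have hSc : IsCompact S := isCompact_Icc.of_isClosed_subset hScl (fun θ hθ => hθ.1)
  have hSne : S.Nonempty := ⟨m + Real.pi, ⟨by linarith, le_refl _⟩, hDp.le⟩
  obtain ⟨β, hβ, hβmin⟩ := hSc.exists_isLeast hSne
  have hβpos : ∀ θ, m ≤ θ → θ < β → 0 < D θ := by
    intro θ h1 h2
    by_contra h3
    push Not at h3
    have : β ≤ θ := hβmin ⟨⟨h1, h2.le.trans hβ.1.2⟩, h3⟩
    linarith
  have hβm : m < β := by
    rcases lt_or_eq_of_le hβ.1.1 with h | h
    · exact h
    · have := hβ.2; rw [← h] at this; linarith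
  have hβ0 : D β = 0 := by
    apply le_antisymm hβ.2
    have h1 : ∀ᶠ θ in 𝓝[<] β, 0 ≤ D θ := by
      filter_upwards [Ioo_mem_nhdsLT hβm] with θ hθ
      exact (hβpos θ hθ.1.le hθ.2).le
    exact ge_of_tendsto ((hDc.tendsto β).mono_left nhdsWithin_le_nhds) h1
  have hβlt : β < m + Real.pi := by
    rcases lt_or_eq_of_le hβ.1.2 with h | h
    · exact h
    · rw [h] at hβ0; linarith
  -- the first zero to the left
  set S' : Set ℝ := {θ | θ ∈ Icc (m - Real.pi) m ∧ D θ ≤ 0} with hS'
  have hScl' : IsClosed S' := isClosed_Icc.inter (isClosed_le hDc continuous_const)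
  have hSc' : IsCompact S' := isCompact_Icc.of_isClosed_subset hScl' (fun θ hθ => hθ.1)
  have hSne' : S'.Nonempty := ⟨m - Real.pi, ⟨le_refl _, by linarith⟩, hDn.le⟩
  obtain ⟨α, hα, hαmax⟩ := hSc'.exists_isGreatest hSne'
  have hαpos : ∀ θ, θ ≤ m → α < θ → 0 < D θ := by
    intro θ h1 h2
    by_contra h3
    push Not at h3
    have : θ ≤ α := hαmax ⟨⟨hα.1.1.trans h2.le, h1⟩, h3⟩
    linarith
  have hαm : α < m := by
    rcases lt_or_eq_of_le hα.1.2 with h | h
    · exact h
    · have := hα.2; rw [h] at this; linarith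
  have hα0 : D α = 0 := by
    apply le_antisymm hα.2
    have h1 : ∀ᶠ θ in 𝓝[>] α, 0 ≤ D θ := by
      filter_upwards [Ioo_mem_nhdsGT hαm] with θ hθ
      exact (hαpos θ hθ.2.le hθ.1).le
    exact ge_of_tendsto ((hDc.tendsto α).mono_left nhdsWithin_le_nhds) h1
  have hαlt : m - Real.pi < α := by
    rcases lt_or_eq_of_le hα.1.1 with h | h
    · exact h
    · rw [← h] at hα0; linarith
  have hpos : ∀ θ, α < θ → θ < β → 0 < D θ := by
    intro θ h1 h2
    rcases le_total θ m with h | h
    · exact hαpos θ h h1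
    · exact hβpos θ h h2
  have hlen : β - α < Real.pi := by
    by_contra hcon
    push Not at hcon
    have h1 := hanti α
    rw [hα0, zero_add] at h1
    rcases lt_or_eq_of_le hcon with h2 | h2
    · have := hpos (α + Real.pi) (by linarith) (by linarith)
      linarith
    · have : α + Real.pi = β := by linarith
      rw [this, hβ0] at h1
      linarith
  refine ⟨α, β, hαm, hβm, hlen, ?_, ?_, ?_, ?_⟩
  · simp only [hD] at hα0; linarith
  · simp only [hD] at hβ0; linarith
  · intro θ h1 h2
    have := hpos θ h1 h2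
    simp only [hD] at this; linarith
  · intro θ h1 h2
    suffices h : D θ < 0 by simp only [hD] at h; linarith
    by_contra hcon
    push Not at hcon
    rcases le_total θ (m + Real.pi) with h | h
    · -- θ in (β, m + π]
      rcases lt_or_eq_of_le h with h' | h'
      · have h3 := harc m θ β (Real.sin_nonneg_of_nonneg_of_le_pi (by linarith) (by linarith))
          (Real.sin_nonneg_of_nonneg_of_le_pi (by linarith) (by linarith))
        rw [hβ0, mul_zero] at h3
        have h4 : 0 < Real.sin (θ - β) * D m :=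
          mul_pos (Real.sin_pos_of_pos_of_lt_pi (by linarith) (by linarith)) hDm
        have h5 : 0 ≤ Real.sin (β - m) * D θ :=
          mul_nonneg (Real.sin_nonneg_of_nonneg_of_le_pi (by linarith) (by linarith)) hcon
        linarith
      · rw [h'] at hcon; linarith
    · -- θ in [m + π, α + 2π)
      set θ' := θ - 2 * Real.pi with hθ'
      have hDθ' : D θ' = D θ := by
        rw [← hper θ']; congr 1; rw [hθ']; ring
      rcases lt_or_eq_of_le h with h' | h'
      · have h3 := harc θ' m α (Real.sin_nonneg_of_nonneg_of_le_pi (by linarith) (by linarith))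
          (Real.sin_nonneg_of_nonneg_of_le_pi (by linarith) (by linarith))
        rw [hα0, mul_zero] at h3
        have h4 : 0 < Real.sin (α - θ') * D m :=
          mul_pos (Real.sin_pos_of_pos_of_lt_pi (by linarith) (by linarith)) hDm
        have h5 : 0 ≤ Real.sin (m - α) * D θ' := by
          rw [hDθ']
          exact mul_nonneg (Real.sin_nonneg_of_nonneg_of_le_pi (by linarith) (by linarith)) hcon
        linarith
      · rw [← h'] at hcon; linarith

end Pool.Agent.Y508
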