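import Pool.Agent.Y508.Grad

/-!
Level sets of the perimeter function.
-/

set_option autoImplicit false
open MeasureTheory Metric Set Filter Topology
open scoped ENNReal

namespace Pool.Agent.Y508

theorem eq_zero_of_ip {x : E2} (h : ∀ θ, ip x θ = 0) : x = 0 := by
  have h0 := h 0
  have h1 := h (Real.pi / 2)
  simp [ip] at h0 h1
  ext i
  fin_cases i
  · simpa using h0
  · simpa using h1

theorem eq_zero_of_ip2 {x : E2} {a b : ℝ} (hs : Real.sin (b - a) ≠ 0) (ha : ip x a = 0)
    (hb : ip x b = 0) : x = 0 := by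
  apply eq_zero_of_ip
  intro θ
  have := ip_arc x a b θ
  rw [ha, hb, mul_zero, mul_zero, add_zero] at this
  exact (mul_eq_zero.1 this).resolve_left hs

theorem ev_eq_of_cos {a b : ℝ} (h : Real.cos (a - b) = 1) : ev a = ev b := by
  have h1 : ‖ev a - ev b‖ ^ 2 = 0 := by
    rw [norm_sq_E2]
    simp only [PiLp.sub_apply, ev_zero, ev_one]
    rw [Real.cos_sub] at h
    have h2 := Real.sin_sq_add_cos_sq a
    have h3 := Real.sin_sq_add_cos_sq b
    nlinarith
  have h2 : ‖ev a - ev b‖ = 0 := by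
    exact pow_eq_zero_iff (two_ne_zero) |>.1 h1
  exact sub_eq_zero.1 (norm_eq_zero.1 h2)

theorem cos_lt_of_ne {a b : ℝ} (h : ev a ≠ ev b) : Real.cos (a - b) < 1 :=
  lt_of_le_of_ne (Real.cos_le_one _) fun h2 => h (ev_eq_of_cos h2)

/-- support points lie on the level curve -/
theorem supp_level {K : Set E2} (hK : Body K) {l θ : ℝ} (hl : W K ≤ l) {P : E2}
    (hP : P ∈ Kl K l) (h : ip P θ = hs (Kl K l) θ) : LL K P = l := by
  have hle : LL K P ≤ l := hP
  rcases lt_or_eq_of_le hle with h1 | h1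
  · exfalso
    have hc : Continuous (fun t : ℝ => LL K (P + t • ev θ)) := (cont_LL hK).comp (by fun_prop)
    have h2 : ∀ᶠ t in 𝓝 (0 : ℝ), LL K (P + t • ev θ) < l := by
      have h0 : LL K (P + (0 : ℝ) • ev θ) < l := by simpa using h1
      exact hc.continuousAt.eventually (gt_mem_nhds h0)
    obtain ⟨t, ht1, ht2⟩ := ((h2.filter_mono nhdsWithin_le_nhds).and
      (self_mem_nhdsWithin : Ioi (0 : ℝ) ∈ 𝓝[>] 0)).exists
    have ht : 0 < t := ht2
    have h3 := le_hs (Kl_body hK hl).cpt (show P + t • ev θ ∈ Kl K l from ht1.le) θ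
    rw [ip_add, ip_smul, ip_ev, sub_self, Real.cos_zero, h] at h3
    linarith
  · exact h1

theorem supp_out {K : Set E2} (hK : Body K) {l θ : ℝ} (hl : W K < l) {P : E2}
    (hP : P ∈ Kl K l) (h : ip P θ = hs (Kl K l) θ) : P ∉ K := by
  intro h1
  have h2 := supp_level hK hl.le hP h
  rw [LL_of_mem hK h1] at h2
  linarith

/-- strict convexity of the level sets -/
theorem strict {K : Set E2} (hK : Body K) {l θ : ℝ} (hl : W K < l) {P Q : E2}
    (hP : P ∈ Kl K l) (hQ : Q ∈ Kl K l) (h1 : ip P θ = hs (Kl K l) θ)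
    (h2 : ip Q θ = hs (Kl K l) θ) : P = Q := by
  set R : E2 := (1 / 2 : ℝ) • P + (1 / 2 : ℝ) • Q with hR
  have hRK : R ∈ Kl K l :=
    (Kl_body hK hl.le).cvx hP hQ (by norm_num) (by norm_num) (by norm_num)
  have hRs : ip R θ = hs (Kl K l) θ := by
    rw [hR, ip_add, ip_smul, ip_smul, h1, h2]; ring
  have lP := supp_level hK hl.le hP h1
  have lQ := supp_level hK hl.le hQ h2
  have lR := supp_level hK hl.le hRK hRs
  have hpt : ∀ φ, max (hs K φ) (ip R φ) =
      (1 / 2) * max (hs K φ) (ip P φ) + (1 / 2) * max (hs K φ) (ip Q φ) := by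
    have hle : ∀ φ, max (hs K φ) (ip R φ) ≤
      (1 / 2) * max (hs K φ) (ip P φ) + (1 / 2) * max (hs K φ) (ip Q φ) := by
      intro φ
      have a1 := le_max_left (hs K φ) (ip P φ)
      have a2 := le_max_right (hs K φ) (ip P φ)
      have a3 := le_max_left (hs K φ) (ip Q φ)
      have a4 := le_max_right (hs K φ) (ip Q φ)
      apply max_le
      · linarith
      · rw [hR, ip_add, ip_smul, ip_smul]; linarith
    intro φ
    by_contra hne
    have hlt := lt_of_le_of_ne (hle φ) hne
    have c1 := cont_max hK P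
    have c2 := cont_max hK Q
    have c3 : Continuous (fun φ => (1 / 2) * max (hs K φ) (ip P φ) +
        (1 / 2) * max (hs K φ) (ip Q φ)) := (continuous_const.mul c1).add (continuous_const.mul c2)
    have h3 := int_lt (cont_max hK R) c3 (per_max K R) (by
        intro φ
        simp only [hs_two_pi, ip_two_pi]) hle hlt
    have h4 : ∫ φ in (0 : ℝ)..(2 * Real.pi), ((1 / 2) * max (hs K φ) (ip P φ) +
        (1 / 2) * max (hs K φ) (ip Q φ)) = (1 / 2) * LL K P + (1 / 2) * LL K Q := by
      unfold LL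
      rw [← intervalIntegral.integral_const_mul, ← intervalIntegral.integral_const_mul,
        ← intervalIntegral.integral_add ((c1.intervalIntegrable _ _).const_mul _)
          ((c2.intervalIntegrable _ _).const_mul _)]
    rw [h4, lP, lQ] at h3
    have h5 : ∫ φ in (0 : ℝ)..(2 * Real.pi), max (hs K φ) (ip R φ) = l := lR
    rw [h5] at h3
    linarith
  have hRout := supp_out hK hl hRK hRs
  obtain ⟨m, δ, hv⟩ := exists_Vis hK hRout
  have key : ∀ φ, hs K φ = ip R φ → ip (P - Q) φ = 0 := by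
    intro φ hφ
    have e := hpt φ
    rw [← hφ, max_self] at e
    have a1 := le_max_left (hs K φ) (ip P φ)
    have a2 := le_max_right (hs K φ) (ip P φ)
    have a3 := le_max_left (hs K φ) (ip Q φ)
    have a4 := le_max_right (hs K φ) (ip Q φ)
    have e2 : ip R φ = (1 / 2) * ip P φ + (1 / 2) * ip Q φ := by
      rw [hR, ip_add, ip_smul, ip_smul]
    rw [ip_sub]
    linarith
  have k1 := key _ hv.lo
  have k2 := key _ hv.hi
  have hsin : Real.sin ((m + δ) - (m - δ)) ≠ 0 := by
    apply ne_of_gt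
    apply Real.sin_pos_of_pos_of_lt_pi
    · have := hv.δ0; linarith
    · have := hv.δ1; linarith
  exact sub_eq_zero.1 (eq_zero_of_ip2 hsin k1 k2)

/-- direction of the gradient at a support point -/
theorem supp_grad {K : Set E2} (hK : Body K) {l θ : ℝ} (hl : W K < l) {P : E2}
    (hP : P ∈ Kl K l) (h : ip P θ = hs (Kl K l) θ) : G K P = ‖G K P‖ • ev θ := by
  have hout := supp_out hK hl hP h
  obtain ⟨m, δ, hv⟩ := exists_Vis hK hout
  have hs0 := hv.sin_pos
  have hG := hv.G_eq hK
  by_cases hm : ev m = ev θ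
  · rw [hm] at hG
    rw [hv.norm_G hK, hG]
  · exfalso
    have hc := cos_lt_of_ne hm
    have hd := descent hK hout (v := ev θ - ev m) (by
      rw [hG, inner_smul_left, real_inner_comm, inner_ev, ip_sub, ip_ev, ip_ev, sub_self,
        Real.cos_zero]
      exact mul_neg_of_pos_of_neg (by simp; linarith) (by linarith))
    obtain ⟨t, ht1, ht2⟩ := (hd.and (self_mem_nhdsWithin : Ioi (0 : ℝ) ∈ 𝓝[>] 0)).exists
    have ht : 0 < t := ht2
    have hle : LL K P ≤ l := hP
    have h3 := le_hs (Kl_body hK hl.le).cpt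
      (show P + t • (ev θ - ev m) ∈ Kl K l from ht1.le.trans hle) θ
    rw [ip_add, ip_smul, ip_sub, ip_ev, ip_ev, sub_self, Real.cos_zero, h] at h3
    have hc' : Real.cos (θ - m) < 1 := by rw [← Real.cos_neg, neg_sub]; exact hc
    have := mul_pos ht (show 0 < 1 - Real.cos (θ - m) by linarith)
    linarith

/-- points of the level curve are support points -/
theorem level_supp {K : Set E2} (hK : Body K) {l θ c : ℝ} (hl : W K ≤ l) {P : E2}
    (hP : LL K P = l) (hc : 0 < c) (hG : G K P = c • ev θ) : ip P θ = hs (Kl K l) θ := by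
  have hPK : P ∈ Kl K l := hP.le
  apply le_antisymm (le_hs (Kl_body hK hl).cpt hPK θ)
  apply hs_le ⟨P, hPK⟩
  intro y hy
  have h1 := subgrad hK P y
  rw [Dg_eq_inner hK, hG, inner_smul_left, real_inner_comm, inner_ev, ip_sub, hP] at h1
  have h2 : LL K y ≤ l := hy
  by_contra h3
  push Not at h3
  have := mul_pos hc (show 0 < ip y θ - ip P θ by linarith)
  simp only [conj_trivial] at h1
  linarith

theorem incr_le {K : Set E2} (hK : Body K) {l l' θ : ℝ} (hl : W K < l) (hll : l ≤ l') {P : E2}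
    (hP : P ∈ Kl K l) (h : ip P θ = hs (Kl K l) θ) :
    ‖G K P‖ * (hs (Kl K l') θ - hs (Kl K l) θ) ≤ l' - l := by
  have hb := Kl_body hK (hl.le.trans hll)
  obtain ⟨P', hP', hPe⟩ := exists_hs hb.cpt hb.ne θ
  have h1 := subgrad hK P P'
  rw [Dg_eq_inner hK, supp_grad hK hl hP h, inner_smul_left, real_inner_comm, inner_ev, ip_sub,
    supp_level hK hl.le hP h, h, ← hPe] at h1
  simp only [conj_trivial] at h1
  have h2 : LL K P' ≤ l' := hP'
  linarith

theorem incr_ge {K : Set E2} (hK : Body K) {l l' θ : ℝ} (hl : W K < l) (hll : l ≤ l') {P' : E2}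
    (hP : P' ∈ Kl K l') (h : ip P' θ = hs (Kl K l') θ) :
    l' - l ≤ ‖G K P'‖ * (hs (Kl K l') θ - hs (Kl K l) θ) := by
  have hb := Kl_body hK hl.le
  obtain ⟨P, hP1, hPe⟩ := exists_hs hb.cpt hb.ne θ
  have hl' := lt_of_lt_of_le hl hll
  have h1 := subgrad hK P' P
  rw [Dg_eq_inner hK, supp_grad hK hl' hP h, inner_smul_left, real_inner_comm, inner_ev, ip_sub,
    supp_level hK hl'.le hP h, h, ← hPe] at h1
  simp only [conj_trivial] at h1
  have h2 : LL K P ≤ l := hP1
  linarith

/-- convergence of support points -/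
theorem supp_tendsto {K : Set E2} (hK : Body K) {l θ : ℝ} (hl : W K < l) {ln θn : ℕ → ℝ}
    (h1 : ∀ n, l ≤ ln n) (h2 : Tendsto ln atTop (𝓝 l)) (h3 : Tendsto θn atTop (𝓝 θ))
    {Pn : ℕ → E2} (h4 : ∀ n, Pn n ∈ Kl K (ln n))
    (h5 : ∀ n, ip (Pn n) (θn n) = hs (Kl K (ln n)) (θn n))
    {P : E2} (h6 : P ∈ Kl K l) (h7 : ip P θ = hs (Kl K l) θ) : Tendsto Pn atTop (𝓝 P) := by
  obtain ⟨L, hL⟩ := h2.bddAbove_range
  have hL' : ∀ n, ln n ≤ L := fun n => hL (mem_range_self n)
  have hWL : W K ≤ L := hl.le.trans ((h1 0).trans (hL' 0))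
  have hcpt := (Kl_body hK hWL).cpt
  have hmem : ∀ n, Pn n ∈ Kl K L := fun n => le_trans (h4 n) (hL' n)
  apply tendsto_of_subseq_tendsto
  intro ns hns
  obtain ⟨Q, hQ, φ, hφ, hQt⟩ := hcpt.tendsto_subseq (fun n => hmem (ns n))
  refine ⟨φ, ?_⟩
  have hsub : Tendsto (fun n => ns (φ n)) atTop atTop := hns.comp hφ.tendsto_atTop
  have hQl : Q ∈ Kl K l := by
    have a1 : Tendsto (fun n => LL K (Pn (ns (φ n)))) atTop (𝓝 (LL K Q)) :=
      ((cont_LL hK).tendsto Q).comp hQt
    exact le_of_tendsto_of_tendsto a1 (h2.comp hsub) (Eventually.of_forall fun n => h4 _)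
  have hQs : ip Q θ = hs (Kl K l) θ := by
    apply le_antisymm (le_hs (Kl_body hK hl.le).cpt hQl θ)
    apply hs_le ⟨Q, hQl⟩
    intro y hy
    have a1 : Tendsto (fun n => ip (Pn (ns (φ n))) (θn (ns (φ n)))) atTop (𝓝 (ip Q θ)) :=
      (cont_ip2.tendsto (θ, Q)).comp ((h3.comp hsub).prodMk_nhds hQt)
    have a2 : Tendsto (fun n => ip y (θn (ns (φ n)))) atTop (𝓝 (ip y θ)) :=
      ((cont_ip y).tendsto θ).comp (h3.comp hsub)
    apply le_of_tendsto_of_tendsto a2 a1
    refine Eventually.of_forall fun n => ?_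
    simp only
    rw [h5]
    apply le_hs (Kl_body hK (hl.le.trans (h1 _))).cpt
    exact le_trans hy (h1 _)
  have : Q = P := strict hK hl hQl h6 hQs h7
  rw [← this]
  exact hQt

/-- equal level curves have equal normals -/
theorem same_dir {M K : Set E2} (hM : Body M) (hK : Body K) {X : E2} (hXM : X ∉ M)
    {a b : ℝ} (hset : {y : E2 | LL M y = a} = {y : E2 | LL K y = b})
    (ha : LL M X = a) {m δ m' δ' : ℝ} (v1 : Vis M X m δ) (v2 : Vis K X m' δ') : ev m = ev m' := by
  have hiff : ∀ y, LL M y = a ↔ LL K y = b := fun y => by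
    constructor
    · intro h
      have : y ∈ {y : E2 | LL M y = a} := h
      rw [hset] at this; exact this
    · intro h
      have : y ∈ {y : E2 | LL K y = b} := h
      rw [← hset] at this; exact this
  by_contra hne
  have hc := cos_lt_of_ne hne
  have hc' : Real.cos (m' - m) < 1 := by rw [← Real.cos_neg, neg_sub]; exact hc
  have s1 := v1.sin_pos
  have s2 := v2.sin_pos
  have hd := descent hM hXM (v := ev m' - ev m) (by
    rw [v1.G_eq hM, inner_smul_left, real_inner_comm, inner_ev, ip_sub, ip_ev, ip_ev, sub_self,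
      Real.cos_zero]
    exact mul_neg_of_pos_of_neg (by simp; linarith) (by linarith))
  obtain ⟨t, ht1, ht2⟩ := (hd.and (self_mem_nhdsWithin : Ioi (0 : ℝ) ∈ 𝓝[>] 0)).exists
  have ht : 0 < t := ht2
  have hasc := ascent hK (x := X) (v := ev m' - ev m) (by
    rw [v2.G_eq hK, inner_smul_left, real_inner_comm, inner_ev, ip_sub, ip_ev, ip_ev, sub_self,
      Real.cos_zero]
    exact mul_pos (by simp; linarith) (by linarith)) ht
  rw [ha] at ht1
  rw [(hiff X).1 ha] at hasc
  generalize X + t • (ev m' - ev m) = Y at ht1 hasc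
  obtain ⟨R, hR⟩ := hM.cpt.isBounded.exists_norm_le
  have hfc : Continuous (fun s : ℝ => LL M (Y + s • ev 0)) := (cont_LL hM).comp (by fun_prop)
  set S : ℝ := ‖Y‖ + |a| + 2 * Real.pi * |R| with hS
  have hpi := Real.pi_pos
  have hS0 : 0 ≤ S := by positivity
  have hbig : ∀ s : ℝ, |s| = S → a ≤ LL M (Y + s • ev 0) := by
    intro s hs
    have h1 := LL_ge hM hR (Y + s • ev 0)
    have h2 : S - ‖Y‖ ≤ ‖Y + s • ev 0‖ := by
      have h3 := norm_sub_le (Y + s • ev 0) Y
      rw [add_sub_cancel_left, norm_smul, norm_ev, mul_one, Real.norm_eq_abs, hs] at h3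
      linarith
    have h4 := le_abs_self a
    have h5 := le_abs_self R
    have h6 : 2 * Real.pi * R ≤ 2 * Real.pi * |R| := mul_le_mul_of_nonneg_left h5 (by positivity)
    have h7 := abs_nonneg a
    have h8 : 0 ≤ 2 * Real.pi * |R| := by positivity
    linarith
  have hf0 : LL M (Y + (0 : ℝ) • ev 0) < a := by simpa using ht1
  obtain ⟨s, hs, hsa⟩ := intermediate_value_Icc hS0 hfc.continuousOn
    ⟨hf0.le, hbig S (abs_of_nonneg hS0)⟩
  obtain ⟨r, hr, hra⟩ := intermediate_value_Icc' (a := -S) (b := 0) (by linarith) hfc.continuousOn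
    ⟨hf0.le, hbig (-S) (by rw [abs_neg, abs_of_nonneg hS0])⟩
  simp only at hsa hra
  have hs0 : 0 < s := by
    rcases lt_or_eq_of_le hs.1 with h | h
    · exact h
    · rw [← h] at hsa; linarith
  have hr0 : r < 0 := by
    rcases lt_or_eq_of_le hr.2 with h | h
    · exact h
    · rw [h] at hra; linarith
  have hsr : 0 < s - r := by linarith
  have h1 := LL_conv hK (Y + s • ev 0) (Y + r • ev 0) (a := -r / (s - r)) (b := s / (s - r))
    (div_nonneg (by linarith) hsr.le) (div_nonneg hs0.le hsr.le)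
    (by rw [← add_div]; rw [div_eq_one_iff_eq hsr.ne']; ring)
  rw [(hiff _).1 hsa, (hiff _).1 hra] at h1
  have e1 : (-r / (s - r)) • (Y + s • ev 0) + (s / (s - r)) • (Y + r • ev 0) = Y := by
    rw [smul_add, smul_add, smul_smul, smul_smul]
    have e2 : (-r / (s - r)) • Y + (-r / (s - r) * s) • ev 0 +
        ((s / (s - r)) • Y + (s / (s - r) * r) • ev 0) =
        (-r / (s - r) + s / (s - r)) • Y + (-r / (s - r) * s + s / (s - r) * r) • ev 0 := by
      rw [add_smul, add_smul]; abel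
    rw [e2]
    have e3 : -r / (s - r) + s / (s - r) = 1 := by
      rw [← add_div, div_eq_one_iff_eq hsr.ne']; ring
    have e4 : -r / (s - r) * s + s / (s - r) * r = 0 := by
      field_simp; ring
    rw [e3, e4, one_smul, zero_smul, add_zero]
  rw [e1] at h1
  have e5 : -r / (s - r) * b + s / (s - r) * b = b := by
    rw [← add_mul, ← add_div]
    rw [show -r + s = s - r by ring, div_self hsr.ne', one_mul]
  rw [e5] at h1
  linarith

end Pool.Agent.Y508
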