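import Pool.Agent.Y508.Basic

/-!
Upper bound in Cauchy's formula for the perimeter.
-/

set_option autoImplicit false
open MeasureTheory Metric Set Filter Topology
open scoped ENNReal

namespace Pool.Agent.Y508

/-- nearest-point projection -/
theorem exists_proj {K : Set E2} (hc : Convex ℝ K) (hK : IsCompact K) (hne : K.Nonempty) :
    ∃ p : E2 → E2, LipschitzWith 1 p ∧
      ∀ u v : E2, v ∈ K → (∀ w ∈ K, inner ℝ (u - v) (w - v) ≤ 0) → p u = v := by
  have h1 := exists_norm_eq_iInf_of_complete_convex hne hK.isComplete hc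
  choose p hp1 hp2 using h1
  have hp3 : ∀ u, ∀ w ∈ K, inner ℝ (u - p u) (w - p u) ≤ 0 := fun u =>
    (norm_eq_iInf_iff_real_inner_le_zero hc (hp1 u)).mp (hp2 u)
  refine ⟨p, ?_, ?_⟩
  · apply LipschitzWith.of_dist_le_mul
    intro x y
    rw [NNReal.coe_one, one_mul, dist_eq_norm, dist_eq_norm]
    have a1 := hp3 x (p y) (hp1 y)
    have a2 := hp3 y (p x) (hp1 x)
    have a3 : ‖p x - p y‖ ^ 2 ≤ inner ℝ (x - y) (p x - p y) := by
      rw [← real_inner_self_eq_norm_sq]
      simp only [inner_sub_left, inner_sub_right] at a1 a2 ⊢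
      rw [real_inner_comm (p x) (p y)] at *
      linarith
    have a4 : inner ℝ (x - y) (p x - p y) ≤ ‖x - y‖ * ‖p x - p y‖ := real_inner_le_norm _ _
    rcases eq_or_lt_of_le (norm_nonneg (p x - p y)) with h | h
    · rw [← h]; exact norm_nonneg _
    · nlinarith
  · intro u v hv h
    have a1 := hp3 u v hv
    have a2 := h (p u) (hp1 u)
    have a3 : ‖p u - v‖ ^ 2 ≤ 0 := by
      rw [← real_inner_self_eq_norm_sq]
      simp only [inner_sub_left, inner_sub_right] at a1 a2 ⊢
      rw [real_inner_comm (p u) v] at *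
      linarith
    have a4 : ‖p u - v‖ = 0 := by
      have := norm_nonneg (p u - v)
      nlinarith
    exact sub_eq_zero.mp (norm_eq_zero.mp a4)

/-- supporting direction at a boundary point -/
theorem exists_support {K : Set E2} (hc : Convex ℝ K) (hi : (interior K).Nonempty) {x : E2}
    (hx : x ∈ frontier K) : ∃ ν : E2, ν ≠ 0 ∧ ∀ w ∈ K, inner ℝ ν (w - x) ≤ 0 := by
  obtain ⟨f, hf⟩ := geometric_hahn_banach_open_point (x := x) hc.interior isOpen_interior hx.2
  set ν := (InnerProductSpace.toDual ℝ E2).symm f with hν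
  have hfν : ∀ w, f w = inner ℝ ν w := fun w => by
    rw [hν, InnerProductSpace.toDual_symm_apply]
  obtain ⟨y, hy⟩ := hi
  refine ⟨ν, ?_, ?_⟩
  · intro h0
    have := hf y hy
    rw [hfν, hfν, h0, inner_zero_left, inner_zero_left] at this
    exact lt_irrefl _ this
  · intro w hw
    rw [inner_sub_right, sub_nonpos, ← hfν, ← hfν]
    have hcl : w ∈ closure (interior K) := by
      rw [hc.closure_interior_eq_closure_of_nonempty_interior ⟨y, hy⟩]
      exact subset_closure hw
    have : closure (interior K) ⊆ {w | f w ≤ f x} :=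
      closure_minimal (fun w hw => (hf w hw).le) (isClosed_le f.continuous continuous_const)
    exact this hcl

/-- last point of a ray in a compact set is a boundary point -/
theorem exists_last {K : Set E2} (hK : IsCompact K) {x ν : E2} (hx : x ∈ K) (hν : ν ≠ 0) :
    ∃ t : ℝ, 0 ≤ t ∧ x + t • ν ∈ frontier K := by
  set S : Set ℝ := {t | 0 ≤ t ∧ x + t • ν ∈ K} with hS
  have hcont : Continuous (fun t : ℝ => x + t • ν) := by fun_prop
  have hSc : IsClosed S :=
    (isClosed_le continuous_const continuous_id).inter (hK.isClosed.preimage hcont)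
  have hν' : 0 < ‖ν‖ := norm_pos_iff.mpr hν
  have hSb : Bornology.IsBounded S := by
    obtain ⟨B, hB⟩ := hK.isBounded.exists_norm_le
    rw [isBounded_iff_forall_norm_le]
    refine ⟨(B + ‖x‖) / ‖ν‖, fun t ht => ?_⟩
    rw [le_div_iff₀ hν']
    have h1 := hB _ ht.2
    have h2 : ‖t‖ * ‖ν‖ = ‖t • ν‖ := (norm_smul t ν).symm
    rw [h2]
    have h3 := norm_sub_le (x + t • ν) x
    rw [add_sub_cancel_left] at h3
    linarith
  have hScomp : IsCompact S := Metric.isCompact_of_isClosed_isBounded hSc hSb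
  have hSne : S.Nonempty := ⟨0, le_refl _, by simpa using hx⟩
  obtain ⟨t, ht, htmax⟩ := hScomp.exists_isGreatest hSne
  refine ⟨t, ht.1, subset_closure ht.2, ?_⟩
  intro hint
  have h1 : ∀ᶠ s in nhds t, x + s • ν ∈ K := by
    have := hcont.continuousAt.preimage_mem_nhds (mem_interior_iff_mem_nhds.mp hint)
    exact this
  have h2 : ∀ᶠ s in nhdsWithin t (Ioi t), x + s • ν ∈ K := h1.filter_mono nhdsWithin_le_nhds
  obtain ⟨s, hs1, hs2⟩ := (h2.and self_mem_nhdsWithin).exists
  have h3 : t < s := hs2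
  have h4 : s ∈ S := ⟨ht.1.trans h3.le, hs1⟩
  have h5 : s ≤ t := htmax h4
  exact absurd h3 (not_lt.mpr h5)

/-- **Monotonicity of the perimeter.** -/
theorem perim_mono {K K' : Set E2} (hc : Convex ℝ K) (hK : IsCompact K) (hi : (interior K).Nonempty)
    (hK' : IsCompact K') (h : K ⊆ K') :
    (μH[1] : Measure E2) (frontier K) ≤ μH[1] (frontier K') := by
  have hne : K.Nonempty := hi.mono interior_subset
  obtain ⟨p, hp1, hp2⟩ := exists_proj hc hK hne
  have hsub : frontier K ⊆ p '' frontier K' := by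
    intro x hx
    have hxK : x ∈ K := hK.isClosed.frontier_subset hx
    obtain ⟨ν, hν, hν2⟩ := exists_support hc hi hx
    obtain ⟨t, ht, ht2⟩ := exists_last hK' (h hxK) hν
    refine ⟨x + t • ν, ht2, ?_⟩
    apply hp2 _ _ hxK
    intro w hw
    rw [add_sub_cancel_left, inner_smul_left]
    exact mul_nonpos_of_nonneg_of_nonpos (by simpa using ht) (hν2 w hw)
  calc (μH[1] : Measure E2) (frontier K) ≤ μH[1] (p '' frontier K') := measure_mono hsub
    _ ≤ ((1 : NNReal) : ℝ≥0∞) ^ (1:ℝ) * μH[1] (frontier K') :=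
      hp1.hausdorffMeasure_image_le zero_le_one _
    _ = μH[1] (frontier K') := by simp

/-- measure of a set inside a segment -/
theorem seg_le (c : E2) (φ A B : ℝ) (S : Set E2)
    (hS : S ⊆ (fun t : ℝ => c + t • ev φ) '' Icc A B) :
    (μH[1] : Measure E2) S ≤ ENNReal.ofReal (B - A) := by
  have hl : LipschitzWith 1 (fun t : ℝ => c + t • ev φ) := by
    apply LipschitzWith.of_dist_le_mul
    intro x y
    rw [NNReal.coe_one, one_mul, dist_eq_norm, dist_eq_norm, add_sub_add_left_eq_sub, ← sub_smul,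
      norm_smul, norm_ev, mul_one]
  calc (μH[1] : Measure E2) S ≤ μH[1] ((fun t : ℝ => c + t • ev φ) '' Icc A B) := measure_mono hS
    _ ≤ ((1 : NNReal) : ℝ≥0∞) ^ (1:ℝ) * μH[1] (Icc A B) :=
      hl.hausdorffMeasure_image_le zero_le_one _
    _ = ENNReal.ofReal (B - A) := by
      rw [hausdorffMeasure_real, Real.volume_Icc]; simp

/-- circumscribed polygon -/
def Cp (K : Set E2) (n : ℕ) : Set E2 :=
  {x | ∀ i : ℤ, ip x (2 * Real.pi / n * i) ≤ hs K (2 * Real.pi / n * i)}

theorem per_aux (n : ℕ) (hn : 0 < n) (i : ℤ) : ∃ j ∈ Finset.range n, ∃ k : ℤ,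
    2 * Real.pi / n * i = 2 * Real.pi / n * ((j : ℤ) : ℝ) + k * (2 * Real.pi) := by
  have hn' : (n : ℤ) ≠ 0 := by exact_mod_cast hn.ne'
  have h1 := Int.emod_nonneg i hn'
  have h2 := Int.emod_lt_of_pos i (show (0 : ℤ) < n by exact_mod_cast hn)
  refine ⟨(i % n).toNat, ?_, i / n, ?_⟩
  · rw [Finset.mem_range]; omega
  · have h3 : (((i % n).toNat : ℤ) : ℝ) = ((i % n : ℤ) : ℝ) := by
      rw [Int.toNat_of_nonneg h1]
    rw [h3]
    have h4 : (i : ℝ) = ((i % n : ℤ) : ℝ) + n * ((i / n : ℤ) : ℝ) := by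
      have := Int.emod_add_mul_ediv i n
      exact_mod_cast this.symm
    rw [h4]
    have hn0 : (n : ℝ) ≠ 0 := by exact_mod_cast hn.ne'
    field_simp

theorem ip_per (x : E2) (θ : ℝ) (k : ℤ) : ip x (θ + k * (2 * Real.pi)) = ip x θ := by
  have : Function.Periodic (ip x) (2 * Real.pi) := ip_two_pi x
  exact this.int_mul k θ

theorem hs_per (K : Set E2) (θ : ℝ) (k : ℤ) : hs K (θ + k * (2 * Real.pi)) = hs K θ := by
  have : Function.Periodic (hs K) (2 * Real.pi) := hs_two_pi K
  exact this.int_mul k θ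

theorem Cp_eq (K : Set E2) (n : ℕ) (hn : 0 < n) : Cp K n =
    ⋂ j ∈ Finset.range n, {x | ip x (2 * Real.pi / n * ((j : ℤ) : ℝ)) ≤
      hs K (2 * Real.pi / n * ((j : ℤ) : ℝ))} := by
  ext x
  simp only [Cp, mem_ofPred_eq, mem_iInter]
  constructor
  · intro h j _
    exact h j
  · intro h i
    obtain ⟨j, hj, k, hk⟩ := per_aux n hn i
    rw [hk, ip_per, hs_per]
    exact h j hj

theorem Cp_frontier (K : Set E2) (n : ℕ) (hn : 0 < n) : frontier (Cp K n) ⊆
    ⋃ j ∈ Finset.range n, {x | x ∈ Cp K n ∧ ip x (2 * Real.pi / n * ((j : ℤ) : ℝ)) =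
      hs K (2 * Real.pi / n * ((j : ℤ) : ℝ))} := by
  have hcl : IsClosed (Cp K n) := by
    rw [Cp_eq K n hn]
    exact isClosed_biInter fun j _ => isClosed_le (cont_in _) continuous_const
  intro x hx
  have hxC : x ∈ Cp K n := hcl.frontier_subset hx
  by_contra hcon
  simp only [mem_iUnion, not_exists, mem_ofPred_eq, not_and] at hcon
  apply hx.2
  have ho : IsOpen (⋂ j ∈ Finset.range n, {x | ip x (2 * Real.pi / n * ((j : ℤ) : ℝ)) <
      hs K (2 * Real.pi / n * ((j : ℤ) : ℝ))}) :=
    isOpen_biInter_finset fun j _ => isOpen_lt (cont_in _) continuous_const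
  rw [mem_interior]
  refine ⟨_, ?_, ho, ?_⟩
  · rw [Cp_eq K n hn]
    refine iInter₂_mono fun j _ y hy => ?_
    have hy' : ip y (2 * Real.pi / n * ((j : ℤ) : ℝ)) < hs K (2 * Real.pi / n * ((j : ℤ) : ℝ)) := hy
    exact hy'.le
  · simp only [mem_iInter, mem_ofPred_eq]
    intro j hj
    exact lt_of_le_of_ne (hxC j) (hcon j hj hxC)

/-- decomposition in an orthonormal frame -/
theorem decomp (x : E2) (a : ℝ) : x = ip x a • ev a + ip x (a + Real.pi / 2) • ev (a + Real.pi / 2) := by
  have h := Real.sin_sq_add_cos_sq a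
  ext i
  fin_cases i
  · simp [ip, Real.cos_add_pi_div_two, Real.sin_add_pi_div_two]
    linear_combination (-(x 0)) * h
  · simp [ip, Real.cos_add_pi_div_two, Real.sin_add_pi_div_two]
    linear_combination (-(x 1)) * h

theorem side_sub (K : Set E2) {n : ℕ} (hn : 3 ≤ n) (i : ℤ) :
    {x | x ∈ Cp K n ∧ ip x (2 * Real.pi / n * i) = hs K (2 * Real.pi / n * i)} ⊆
      (fun t : ℝ => (hs K (2 * Real.pi / n * i) • ev (2 * Real.pi / n * i)) +
        t • ev (2 * Real.pi / n * i + Real.pi / 2)) ''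
        Icc (-(hs K (2 * Real.pi / n * ((i - 1 : ℤ) : ℝ)) -
          hs K (2 * Real.pi / n * i) * Real.cos (2 * Real.pi / n)) / Real.sin (2 * Real.pi / n))
          ((hs K (2 * Real.pi / n * ((i + 1 : ℤ) : ℝ)) -
          hs K (2 * Real.pi / n * i) * Real.cos (2 * Real.pi / n)) / Real.sin (2 * Real.pi / n)) := by
  rintro x ⟨hx, hxi⟩
  set δ := 2 * Real.pi / n with hδ
  have hn0 : (3 : ℝ) ≤ n := by exact_mod_cast hn
  have hsin : 0 < Real.sin δ := by
    apply Real.sin_pos_of_pos_of_lt_pi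
    · have := Real.pi_pos; positivity
    · rw [hδ, div_lt_iff₀ (by linarith)]
      nlinarith [Real.pi_pos]
  have h1 := hx (i + 1)
  have h2 := hx (i - 1)
  have e1 : ip x (δ * ((i + 1 : ℤ) : ℝ)) = ip x (δ * i) * Real.cos δ +
      ip x (δ * i + Real.pi / 2) * Real.sin δ := by
    have : δ * ((i + 1 : ℤ) : ℝ) = δ * i + δ := by push_cast; ring
    rw [this]
    simp only [ip, Real.cos_add, Real.sin_add, Real.cos_pi_div_two, Real.sin_pi_div_two]
    ring
  have e2 : ip x (δ * ((i - 1 : ℤ) : ℝ)) = ip x (δ * i) * Real.cos δ -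
      ip x (δ * i + Real.pi / 2) * Real.sin δ := by
    have : δ * ((i - 1 : ℤ) : ℝ) = δ * i - δ := by push_cast; ring
    rw [this]
    simp only [ip, Real.cos_add, Real.sin_add, Real.cos_sub, Real.sin_sub, Real.cos_pi_div_two,
      Real.sin_pi_div_two]
    ring
  refine ⟨ip x (δ * i + Real.pi / 2), ⟨?_, ?_⟩, ?_⟩
  · rw [div_le_iff₀ hsin]
    rw [← hδ] at h2
    rw [e2, hxi] at h2
    linarith
  · rw [le_div_iff₀ hsin]
    rw [← hδ] at h1
    rw [e1, hxi] at h1
    linarith
  · simp only
    rw [← hxi]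
    exact (decomp x _).symm

theorem hs_conv3 {K : Set E2} (hK : IsCompact K) (hne : K.Nonempty) (a d : ℝ) :
    2 * Real.cos d * hs K a ≤ hs K (a + d) + hs K (a - d) := by
  obtain ⟨x, hx, hxe⟩ := exists_hs hK hne a
  have h1 := le_hs hK hx (a + d)
  have h2 := le_hs hK hx (a - d)
  have e3 : ip x (a + d) + ip x (a - d) = 2 * Real.cos d * ip x a := by
    simp only [ip, Real.cos_add, Real.cos_sub, Real.sin_add, Real.sin_sub]
    ring
  rw [hxe]
  linarith

theorem shift_sum (g : ℤ → ℝ) (n : ℕ) (h : g n = g 0) :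
    ∑ j ∈ Finset.range n, g ((j : ℤ) + 1) = ∑ j ∈ Finset.range n, g (j : ℤ) := by
  have h1 := Finset.sum_range_succ (fun j : ℕ => g (j : ℤ)) n
  have h2 := Finset.sum_range_succ' (fun j : ℕ => g (j : ℤ)) n
  simp only [Nat.cast_add, Nat.cast_one, Nat.cast_zero] at h1 h2
  linarith

theorem Cp_perim {K : Set E2} (hK : Body K) {n : ℕ} (hn : 3 ≤ n) :
    (μH[1] : Measure E2) (frontier (Cp K n)) ≤
      ENNReal.ofReal (2 * Real.tan (Real.pi / n) *
        ∑ i ∈ Finset.range n, hs K (2 * Real.pi * i / n)) := by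
  set δ := 2 * Real.pi / n with hδ
  have hn0 : (3 : ℝ) ≤ n := by exact_mod_cast hn
  have hpi := Real.pi_pos
  have hsin : 0 < Real.sin δ := by
    apply Real.sin_pos_of_pos_of_lt_pi
    · positivity
    · rw [hδ, div_lt_iff₀ (by linarith)]
      nlinarith [Real.pi_pos]
  set g : ℤ → ℝ := fun i => hs K (δ * i) with hg
  have hgper : ∀ i : ℤ, g (i + n) = g i := by
    intro i
    simp only [hg]
    have : δ * ((i + n : ℤ) : ℝ) = δ * i + ((1 : ℤ) : ℝ) * (2 * Real.pi) := by
      rw [hδ]; push_cast; field_simp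
    rw [this, hs_per]
  set L : ℤ → ℝ := fun i => (g (i + 1) + g (i - 1) - 2 * Real.cos δ * g i) / Real.sin δ with hL
  have hL0 : ∀ i, 0 ≤ L i := by
    intro i
    apply div_nonneg _ hsin.le
    have := hs_conv3 hK.cpt hK.ne (δ * i) δ
    simp only [hg]
    have e1 : δ * ((i + 1 : ℤ) : ℝ) = δ * i + δ := by push_cast; ring
    have e2 : δ * ((i - 1 : ℤ) : ℝ) = δ * i - δ := by push_cast; ring
    rw [e1, e2]
    linarith
  have h1 : (μH[1] : Measure E2) (frontier (Cp K n)) ≤
      ∑ j ∈ Finset.range n, ENNReal.ofReal (L j) := by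
    refine (measure_mono (Cp_frontier K n (by omega))).trans ?_
    refine (measure_biUnion_finset_le _ _).trans ?_
    apply Finset.sum_le_sum
    intro j _
    refine (seg_le _ _ _ _ _ (side_sub K hn j)).trans ?_
    apply ENNReal.ofReal_le_ofReal
    apply le_of_eq
    simp only [hL, hg]
    rw [← hδ]
    ring
  rw [← ENNReal.ofReal_sum_of_nonneg (f := fun j : ℕ => L j) (fun j _ => hL0 j)] at h1
  refine h1.trans (ENNReal.ofReal_le_ofReal (le_of_eq ?_))
  simp only [hL]
  rw [← Finset.sum_div, Finset.sum_sub_distrib, Finset.sum_add_distrib]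
  have s1 : ∑ j ∈ Finset.range n, g ((j : ℤ) + 1) = ∑ j ∈ Finset.range n, g (j : ℤ) := by
    apply shift_sum
    have := hgper 0
    rwa [zero_add] at this
  have s2 : ∑ j ∈ Finset.range n, g ((j : ℤ) - 1) = ∑ j ∈ Finset.range n, g (j : ℤ) := by
    have := shift_sum (fun i => g (i - 1)) n (by
      have := hgper (-1)
      simp only [zero_sub]
      rw [← this]; congr 1)
    rw [← this]
    apply Finset.sum_congr rfl
    intro j _
    simp
  have s3 : ∑ i ∈ Finset.range n, hs K (2 * Real.pi * i / n) = ∑ j ∈ Finset.range n, g (j : ℤ) := by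
    apply Finset.sum_congr rfl
    intro j _
    simp only [hg]
    congr 1
    rw [hδ]; push_cast; ring
  rw [s1, s2, s3, ← Finset.mul_sum]
  set S := ∑ j ∈ Finset.range n, g (j : ℤ)
  have hd2 : δ = 2 * (Real.pi / n) := by rw [hδ]; ring
  have hcos : Real.cos (Real.pi / n) ≠ 0 := by
    apply ne_of_gt
    apply Real.cos_pos_of_mem_Ioo
    constructor
    · have : 0 < Real.pi / n := by positivity
      linarith
    · rw [div_lt_div_iff_of_pos_left hpi (by linarith) two_pos]
      linarith
  have hsin2 : Real.sin (Real.pi / n) ≠ 0 := by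
    intro h0
    rw [hd2, Real.sin_two_mul, h0] at hsin
    simp at hsin
  rw [hd2, Real.sin_two_mul, Real.cos_two_mul, Real.tan_eq_sin_div_cos]
  field_simp
  have := Real.sin_sq_add_cos_sq (Real.pi / n)
  first
  | linear_combination (-2 * S) * this
  | linear_combination (2 * S) * this
  | (have h9 : Real.sin (Real.pi / n) ^ 2 = 1 - Real.cos (Real.pi / n) ^ 2 := by linarith
     rw [h9]; ring)

theorem riemann {f : ℝ → ℝ} (hf : Continuous f) :
    Tendsto (fun n : ℕ => 2 * Real.pi / n * ∑ i ∈ Finset.range n, f (2 * Real.pi * i / n)) atTop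
      (𝓝 (∫ θ in (0 : ℝ)..(2 * Real.pi), f θ)) := by
  have hpi := Real.pi_pos
  rw [Metric.tendsto_atTop]
  intro ε hε
  have huc := isCompact_Icc (a := (0 : ℝ)) (b := 2 * Real.pi) |>.uniformContinuousOn_of_continuous
    hf.continuousOn
  rw [Metric.uniformContinuousOn_iff] at huc
  obtain ⟨d, hd, hd'⟩ := huc (ε / (4 * Real.pi)) (by positivity)
  obtain ⟨N, hN⟩ := exists_nat_gt (2 * Real.pi / d)
  refine ⟨N + 1, fun n hn => ?_⟩
  have hn0 : (0 : ℝ) < n := by
    have : 0 < n := by omega
    exact_mod_cast this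
  have hnd : 2 * Real.pi / n < d := by
    have h1 : (N : ℝ) < n := by
      have : N < n := by omega
      exact_mod_cast this
    rw [div_lt_iff₀ hd] at hN
    rw [div_lt_iff₀ hn0]
    nlinarith
  set a : ℕ → ℝ := fun k => 2 * Real.pi * k / n with ha
  have hstep : ∀ k, a (k + 1) - a k = 2 * Real.pi / n := by
    intro k
    simp only [ha]
    push_cast
    ring
  have hsplit : ∫ θ in (0 : ℝ)..(2 * Real.pi), f θ =
      ∑ k ∈ Finset.range n, ∫ θ in a k..a (k + 1), f θ := by
    rw [intervalIntegral.sum_integral_adjacent_intervals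
      (fun k _ => hf.intervalIntegrable _ _)]
    congr 1
    · simp [ha]
    · simp only [ha]
      field_simp
  have hterm : ∀ k ∈ Finset.range n,
      ‖2 * Real.pi / n * f (a k) - ∫ θ in a k..a (k + 1), f θ‖ ≤
        ε / (4 * Real.pi) * (2 * Real.pi / n) := by
    intro k hk
    rw [Finset.mem_range] at hk
    have hlt : a k < a (k + 1) := by
      have := hstep k
      have h2 : (0 : ℝ) < 2 * Real.pi / n := by positivity
      linarith
    have hk0 : 0 ≤ a k := by simp only [ha]; positivity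
    have hk1 : a (k + 1) ≤ 2 * Real.pi := by
      simp only [ha]
      rw [div_le_iff₀ hn0]
      have : ((k + 1 : ℕ) : ℝ) ≤ n := by exact_mod_cast hk
      nlinarith
    have e1 : 2 * Real.pi / n * f (a k) - ∫ θ in a k..a (k + 1), f θ =
        ∫ θ in a k..a (k + 1), (f (a k) - f θ) := by
      rw [intervalIntegral.integral_sub (by simp) (hf.intervalIntegrable _ _),
        intervalIntegral.integral_const, hstep, smul_eq_mul]
    rw [e1]
    refine (intervalIntegral.norm_integral_le_of_norm_le_const (C := ε / (4 * Real.pi))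
      fun θ hθ => ?_).trans ?_
    · rw [uIoc_of_le hlt.le, mem_Ioc] at hθ
      have := hd' (a k) ⟨hk0, hlt.le.trans hk1⟩ θ ⟨hk0.trans hθ.1.le, hθ.2.trans hk1⟩ (by
        rw [Real.dist_eq, abs_lt]
        have := hstep k
        constructor <;> linarith)
      rw [Real.dist_eq] at this
      exact this.le
    · rw [hstep, abs_of_nonneg (by positivity)]
  rw [hsplit, dist_eq_norm, Finset.mul_sum, ← Finset.sum_sub_distrib]
  calc ‖∑ k ∈ Finset.range n, (2 * Real.pi / n * f (a k) - ∫ θ in a k..a (k + 1), f θ)‖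
      ≤ ∑ k ∈ Finset.range n, ε / (4 * Real.pi) * (2 * Real.pi / n) := norm_sum_le_of_le _ hterm
    _ = ε / 2 := by
        rw [Finset.sum_const, Finset.card_range, nsmul_eq_mul]
        field_simp
        ring
    _ < ε := by linarith

theorem tan_lim : Tendsto (fun n : ℕ => Real.tan (Real.pi / n) / (Real.pi / n)) atTop (𝓝 1) := by
  have h0 : Real.cos 0 ≠ 0 := by simp
  have hd := Real.hasDerivAt_tan h0
  rw [Real.cos_zero, one_pow, div_one, hasDerivAt_iff_tendsto_slope] at hd
  have hlim : Tendsto (fun n : ℕ => Real.pi / (n : ℝ)) atTop (𝓝[≠] 0) := by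
    rw [tendsto_nhdsWithin_iff]
    constructor
    · exact tendsto_const_div_atTop_nhds_zero_nat Real.pi
    · filter_upwards [eventually_gt_atTop 0] with n hn
      simp only [mem_compl_iff, mem_singleton_iff]
      have := Real.pi_pos
      have hn' : (0 : ℝ) < n := by exact_mod_cast hn
      positivity
  refine (hd.comp hlim).congr fun m => ?_
  simp only [Function.comp_apply, slope_def_field, Real.tan_zero, sub_zero]

/-- upper bound in Cauchy's formula -/
theorem perim_le {K : Set E2} (hK : Body K) :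
    (μH[1] : Measure E2) (frontier K) ≤ ENNReal.ofReal (W K) := by
  have h1 : Tendsto (fun n : ℕ => 2 * Real.tan (Real.pi / n) *
      ∑ i ∈ Finset.range n, hs K (2 * Real.pi * i / n)) atTop (𝓝 (W K)) := by
    have h2 := tan_lim.mul (riemann (cont_hs hK.cpt))
    rw [one_mul] at h2
    refine h2.congr' ?_
    filter_upwards [eventually_gt_atTop 0] with n hn
    have hn' : (n : ℝ) ≠ 0 := by exact_mod_cast hn.ne'
    have hpi := Real.pi_ne_zero
    field_simp
  have h3 := (ENNReal.continuous_ofReal.tendsto _).comp h1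
  refine ge_of_tendsto h3 ?_
  filter_upwards [eventually_ge_atTop 4] with n hn
  refine le_trans (perim_mono hK.cvx hK.cpt hK.int ?_ ?_) (Cp_perim hK (by omega))
  · -- compactness
    have hn' : (4 : ℝ) ≤ n := by exact_mod_cast hn
    have hcl : IsClosed (Cp K n) := by
      rw [Cp_eq K n (by omega)]
      exact isClosed_biInter fun j _ => isClosed_le (cont_in _) continuous_const
    apply Metric.isCompact_of_isClosed_isBounded hcl
    rw [isBounded_iff_forall_norm_le]
    have hfr : ∀ x ∈ Cp K n, ∃ C : ℝ, True := fun _ _ => ⟨0, trivial⟩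
    -- each point of `Cp` is within distance `R / cos (π/n)`
    obtain ⟨R, hR⟩ := hK.cpt.isBounded.exists_norm_le
    have hR' : ∀ θ, hs K θ ≤ R := by
      intro θ
      apply hs_le hK.ne
      intro x hx
      exact (le_abs_self _).trans ((abs_ip_le x θ).trans (hR x hx))
    refine ⟨2 * |R|, fun x hx => ?_⟩
    by_cases hx0 : x = 0
    · rw [hx0, norm_zero]; positivity
    obtain ⟨θ, hθ⟩ := exists_pos_ev x hx0
    set δ := 2 * Real.pi / n with hδ
    have hpi := Real.pi_pos
    have hδ0 : 0 < δ := by positivity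
    set i : ℤ := round (θ / δ) with hi
    have h4 : |δ * i - θ| ≤ δ / 2 := by
      have := abs_sub_round (θ / δ)
      rw [← hi] at this
      have e : δ * i - θ = -(δ * (θ / δ - i)) := by field_simp; ring
      rw [e, abs_neg, abs_mul, abs_of_pos hδ0]
      nlinarith
    have h5 : δ / 2 ≤ Real.pi / 4 := by
      rw [hδ]
      rw [div_div, div_le_div_iff₀ (by linarith) (by norm_num)]
      nlinarith
    have h6 : 1 / 2 ≤ Real.cos (δ * i - θ) := by
      rw [← Real.cos_abs]
      rw [← Real.cos_pi_div_three]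
      apply Real.cos_le_cos_of_nonneg_of_le_pi (abs_nonneg _) (by linarith)
      linarith
    have h7 := hx i
    rw [← hδ] at h7
    rw [hθ, ip_smul, ip_ev] at h7
    have h8 := hR' (δ * i)
    have h9 := le_abs_self R
    nlinarith [norm_nonneg x]
  · intro x hx i
    exact le_hs hK.cpt hx _

end Pool.Agent.Y508
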