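import Pool.Agent.Y508.Lvl

/-!
The symmetry relation along a level curve.
-/

set_option autoImplicit false
open MeasureTheory Metric Set Filter Topology
open scoped ENNReal

namespace Pool.Agent.Y508

/-- decomposition in an orthonormal frame, scalar form -/
theorem ip_rot (x : E2) (a d : ℝ) :
    ip x (a + d) = ip x a * Real.cos d + ip x (a + Real.pi / 2) * Real.sin d := by
  simp only [ip, Real.cos_add, Real.sin_add, Real.cos_pi_div_two, Real.sin_pi_div_two]
  ring

/-- the limit of the quotients at one of the two tangents -/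
theorem squeeze {K : Set E2} (hK : Body K) {l θ t σ : ℝ} (hl : W K < l) {X P : E2}
    (hP : P ∈ Kl K l) (hPs : ip P θ = hs (Kl K l) θ) (hσ : σ = 1 ∨ σ = -1)
    (hX : X - P = (-(σ * t)) • ev (θ + Real.pi / 2)) {ln εn : ℕ → ℝ} (h1 : ∀ n, l ≤ ln n)
    (h2 : Tendsto ln atTop (𝓝 l)) (hε0 : ∀ n, 0 < εn n) (hε1 : ∀ n, εn n < Real.pi / 2)
    (hε : Tendsto εn atTop (𝓝 0))
    (h3 : ∀ n, hs (Kl K (ln n)) (θ - σ * εn n) = ip X (θ - σ * εn n)) :
    Tendsto (fun n => (ln n - l) / Real.sin (εn n)) atTop (𝓝 (‖G K P‖ * t)) := by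
  have hpi := Real.pi_pos
  have hσ2 : σ * σ = 1 := by rcases hσ with h | h <;> rw [h] <;> norm_num
  have hsinσ : ∀ e, Real.sin (σ * e) = σ * Real.sin e := by
    intro e; rcases hσ with h | h <;> rw [h] <;> simp
  have hcosσ : ∀ e, Real.cos (σ * e) = Real.cos e := by
    intro e; rcases hσ with h | h <;> rw [h] <;> simp
  have hbl := Kl_body hK hl.le
  have hbn : ∀ n, Body (Kl K (ln n)) := fun n => Kl_body hK (hl.le.trans (h1 n))
  set θn : ℕ → ℝ := fun n => θ - σ * εn n with hθn
  have hθt : Tendsto θn atTop (𝓝 θ) := by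
    have := (tendsto_const_nhds (x := θ)).sub ((tendsto_const_nhds (x := σ)).mul hε)
    simpa using this
  choose P1 hP1 hP1s using fun n => exists_hs (hbn n).cpt (hbn n).ne (θn n)
  choose P2 hP2 hP2s using fun n => exists_hs hbl.cpt hbl.ne (θn n)
  have hPout := supp_out hK hl hP hPs
  have t1 : Tendsto P1 atTop (𝓝 P) :=
    supp_tendsto hK hl h1 h2 hθt hP1 (fun n => (hP1s n).symm) hP hPs
  have t2 : Tendsto P2 atTop (𝓝 P) :=
    supp_tendsto hK hl (fun _ => le_refl l) tendsto_const_nhds hθt hP2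
      (fun n => (hP2s n).symm) hP hPs
  have g1 : Tendsto (fun n => ‖G K (P1 n)‖) atTop (𝓝 ‖G K P‖) :=
    ((G_cont hK hPout).tendsto.comp t1).norm
  have g2 : Tendsto (fun n => ‖G K (P2 n)‖) atTop (𝓝 ‖G K P‖) :=
    ((G_cont hK hPout).tendsto.comp t2).norm
  have hsin : ∀ n, 0 < Real.sin (εn n) := fun n =>
    Real.sin_pos_of_pos_of_lt_pi (hε0 n) (by linarith [hε1 n])
  have hcos : ∀ n, 0 < Real.cos (εn n) := fun n =>
    Real.cos_pos_of_mem_Ioo ⟨by linarith [hε0 n], hε1 n⟩
  have hipXP : ∀ φ, ip (X - P) φ = -(σ * t) * Real.sin (φ - θ) := by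
    intro φ
    rw [hX, ip_smul, ip_ev]
    have : φ - (θ + Real.pi / 2) = (φ - θ) - Real.pi / 2 := by ring
    rw [this, Real.cos_sub_pi_div_two]
  -- upper bounds
  have up : ∀ n, (ln n - l) / Real.sin (εn n) ≤ ‖G K (P1 n)‖ * t := by
    intro n
    rw [div_le_iff₀ (hsin n)]
    have a1 := incr_ge hK hl (h1 n) (hP1 n) (hP1s n).symm
    have a2 : hs (Kl K (ln n)) (θn n) - hs (Kl K l) (θn n) ≤ t * Real.sin (εn n) := by
      rw [h3 n]
      have a3 := le_hs hbl.cpt hP (θn n)
      have a4 := hipXP (θn n)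
      rw [ip_sub] at a4
      have a5 : θn n - θ = -(σ * εn n) := by simp only [hθn]; ring
      rw [a5, Real.sin_neg, hsinσ] at a4
      have a6 : -(σ * t) * -(σ * Real.sin (εn n)) = t * Real.sin (εn n) := by
        linear_combination (t * Real.sin (εn n)) * hσ2
      rw [a6] at a4
      show ip X (θn n) - hs (Kl K l) (θn n) ≤ _
      linarith
    calc ln n - l ≤ ‖G K (P1 n)‖ * (hs (Kl K (ln n)) (θn n) - hs (Kl K l) (θn n)) := a1
      _ ≤ ‖G K (P1 n)‖ * (t * Real.sin (εn n)) := mul_le_mul_of_nonneg_left a2 (norm_nonneg _)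
      _ = ‖G K (P1 n)‖ * t * Real.sin (εn n) := by ring
  -- lower bounds
  have lo : ∀ n, ‖G K (P2 n)‖ * (-(σ * ip (X - P2 n) (θn n + Real.pi / 2))) ≤
      (ln n - l) / Real.sin (εn n) := by
    intro n
    rw [le_div_iff₀ (hsin n)]
    have a1 := incr_le hK hl (h1 n) (hP2 n) (hP2s n).symm
    set r := hs (Kl K (ln n)) (θn n) - hs (Kl K l) (θn n) with hr
    have a2 : r = ip (X - P2 n) (θn n) := by
      rw [hr, h3 n, hP2s n, ip_sub]
    have a3 : 0 ≤ ip (X - P2 n) θ := by
      have b1 := le_hs hbl.cpt (hP2 n) θ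
      have b2 := hipXP θ
      rw [sub_self, Real.sin_zero, mul_zero, ip_sub] at b2
      rw [ip_sub]
      linarith
    have a4 := ip_rot (X - P2 n) (θn n) (σ * εn n)
    have a5 : θn n + σ * εn n = θ := by simp only [hθn]; ring
    rw [a5, hcosσ, hsinσ, ← a2] at a4
    have a6 : -(σ * ip (X - P2 n) (θn n + Real.pi / 2)) * Real.sin (εn n) ≤
        r * Real.cos (εn n) := by linarith
    have a7 := Real.cos_le_one (εn n)
    have a8 : 0 ≤ ln n - l := by linarith [h1 n]
    calc ‖G K (P2 n)‖ * (-(σ * ip (X - P2 n) (θn n + Real.pi / 2))) * Real.sin (εn n)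
        = ‖G K (P2 n)‖ * (-(σ * ip (X - P2 n) (θn n + Real.pi / 2)) * Real.sin (εn n)) := by ring
      _ ≤ ‖G K (P2 n)‖ * (r * Real.cos (εn n)) := mul_le_mul_of_nonneg_left a6 (norm_nonneg _)
      _ = ‖G K (P2 n)‖ * r * Real.cos (εn n) := by ring
      _ ≤ (ln n - l) * Real.cos (εn n) := mul_le_mul_of_nonneg_right a1 (hcos n).le
      _ ≤ (ln n - l) * 1 := mul_le_mul_of_nonneg_left a7 a8
      _ = ln n - l := mul_one _
  have lim1 : Tendsto (fun n => ‖G K (P1 n)‖ * t) atTop (𝓝 (‖G K P‖ * t)) :=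
    g1.mul_const t
  have lim2 : Tendsto (fun n => ‖G K (P2 n)‖ * (-(σ * ip (X - P2 n) (θn n + Real.pi / 2)))) atTop
      (𝓝 (‖G K P‖ * t)) := by
    have b1 : Tendsto (fun n => ip (X - P2 n) (θn n + Real.pi / 2)) atTop
        (𝓝 (ip (X - P) (θ + Real.pi / 2))) :=
      (cont_ip2.tendsto (θ + Real.pi / 2, X - P)).comp
        ((hθt.add_const _).prodMk_nhds (tendsto_const_nhds.sub t2))
    have b2 := hipXP (θ + Real.pi / 2)
    rw [add_sub_cancel_left, Real.sin_pi_div_two, mul_one] at b2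
    rw [b2] at b1
    have b3 := g2.mul ((b1.const_mul σ).neg)
    have b4 : -(σ * -(σ * t)) = t := by linear_combination t * hσ2
    rw [b4] at b3
    exact b3
  exact tendsto_of_tendsto_of_tendsto_of_le_of_le lim2 lim1 lo up

/-- the transitivity property -/
def Tr (K : Set E2) : Prop := ∀ l1 : ℝ, W K < l1 → ∀ l2 : ℝ, W (Kl K l1) < l2 →
  ∃ l3 : ℝ, {y : E2 | LL (Kl K l1) y = l2} = {y : E2 | LL K y = l3}

theorem bis {K : Set E2} (hK : Body K) (hT : Tr K) {l : ℝ} (hl : W K < l) {X : E2}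
    (hX : X ∉ Kl K l) {m δ m' δ' : ℝ} (v : Vis (Kl K l) X m δ) (v' : Vis K X m' δ') :
    ev m = ev m' := by
  have hb := Kl_body hK hl.le
  obtain ⟨l3, h3⟩ := hT l hl (LL (Kl K l) X) (lt_LL hb hX)
  exact same_dir hb hK hX h3 rfl v v'

theorem ev_eq_iff {a b : ℝ} (h : ev a = ev b) : ∃ k : ℤ, a = b + k * (2 * Real.pi) := by
  have c1 : Real.cos a = Real.cos b := congrArg (fun x : E2 => x 0) h
  have c2 : Real.sin a = Real.sin b := congrArg (fun x : E2 => x 1) h
  have c3 : Real.cos (a - b) = 1 := by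
    rw [Real.cos_sub, c1, c2]
    have := Real.sin_sq_add_cos_sq b
    nlinarith
  obtain ⟨k, hk⟩ := (Real.cos_eq_one_iff _).1 c3
  exact ⟨k, by linarith⟩

theorem bis2 {K : Set E2} (hK : Body K) (hT : Tr K) {l l' : ℝ} (hl : W K < l) (hl' : W K < l')
    {X : E2} (hX : X ∉ Kl K l) (hX' : X ∉ Kl K l') {m δ : ℝ} (v : Vis (Kl K l) X m δ) :
    ∃ δ', Vis (Kl K l') X m δ' := by
  obtain ⟨m', δ', v'⟩ := exists_Vis (Kl_body hK hl'.le) hX'
  obtain ⟨m0, δ0, v0⟩ := exists_Vis hK (fun h => hX (sub_Kl hK hl.le h))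
  have e1 := bis hK hT hl hX v v0
  have e2 := bis hK hT hl' hX' v' v0
  obtain ⟨k, hk⟩ := ev_eq_iff (e1.trans e2.symm)
  refine ⟨δ', ?_⟩
  rw [hk]
  exact v'.shift k

theorem ev_ne_of_sin {α β : ℝ} (hs : Real.sin (β - α) ≠ 0) : ev α ≠ ev β := by
  intro h
  have c1 : Real.cos α = Real.cos β := congrArg (fun x : E2 => x 0) h
  have c2 : Real.sin α = Real.sin β := congrArg (fun x : E2 => x 1) h
  apply hs
  rw [Real.sin_sub, c1, c2]
  ring

/-- two support points with different normals are different -/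
theorem supp_ne {K : Set E2} (hK : Body K) {l α β : ℝ} (hl : W K < l) {P Q : E2}
    (hP : P ∈ Kl K l) (hPs : ip P α = hs (Kl K l) α) (hQ : Q ∈ Kl K l)
    (hQs : ip Q β = hs (Kl K l) β) (hne : ev α ≠ ev β) : P ≠ Q := by
  intro h
  subst h
  have h1 := supp_grad hK hl hP hPs
  have h2 := supp_grad hK hl hP hQs
  have h3 := G_ne_zero hK (supp_out hK hl hP hPs)
  apply hne
  rw [h1] at h2
  rw [← h1] at h2
  have h4 : ‖G K P‖ • ev α = ‖G K P‖ • ev β := by rw [← h1]; exact h2
  exact smul_right_injective _ h3.ne' h4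

theorem ident {K : Set E2} (hK : Body K) (hT : Tr K) {l α β : ℝ} (hl : W K < l) (hαβ : α < β)
    (hβ : β < α + Real.pi) {P Q : E2} (hP : P ∈ Kl K l) (hPs : ip P α = hs (Kl K l) α)
    (hQ : Q ∈ Kl K l) (hQs : ip Q β = hs (Kl K l) β) :
    ‖G K P‖⁻¹ * ip (P - Q) α = ‖G K Q‖⁻¹ * ip (Q - P) β := by
  have hpi := Real.pi_pos
  have hb := Kl_body hK hl.le
  have hs0 : 0 < Real.sin (β - α) := Real.sin_pos_of_pos_of_lt_pi (by linarith) (by linarith)
  have hPQ : P ≠ Q := supp_ne hK hl hP hPs hQ hQs (ev_ne_of_sin hs0.ne')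
  set t₁ : ℝ := (hs (Kl K l) β - ip P β) / Real.sin (β - α) with ht₁
  set X : E2 := P + t₁ • ev (α + Real.pi / 2) with hX
  have hXα : ip X α = hs (Kl K l) α := by
    rw [hX, ip_add, ip_smul, ip_ev, hPs]
    have : α - (α + Real.pi / 2) = -(Real.pi / 2) := by ring
    rw [this, Real.cos_neg, Real.cos_pi_div_two, mul_zero, add_zero]
  have hXβ : ip X β = hs (Kl K l) β := by
    rw [hX, ip_add, ip_smul, ip_ev]
    have : β - (α + Real.pi / 2) = (β - α) - Real.pi / 2 := by ring
    rw [this, Real.cos_sub_pi_div_two, ht₁, div_mul_cancel₀ _ hs0.ne']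
    ring
  -- X is outside on (α, β)
  have hvis : ∀ θ, α < θ → θ < β → hs (Kl K l) θ < ip X θ := by
    intro θ h1 h2
    obtain ⟨R, hR, hRs⟩ := exists_hs hb.cpt hb.ne θ
    have s1 : 0 < Real.sin (β - θ) := Real.sin_pos_of_pos_of_lt_pi (by linarith) (by linarith)
    have s2 : 0 < Real.sin (θ - α) := Real.sin_pos_of_pos_of_lt_pi (by linarith) (by linarith)
    have a1 := ip_arc R α β θ
    have a2 := ip_arc X α β θ
    rw [hXα, hXβ] at a2
    have a3 := le_hs hb.cpt hR α
    have a4 := le_hs hb.cpt hR β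
    by_contra hcon
    push Not at hcon
    have a5 : Real.sin (β - α) * ip X θ ≤ Real.sin (β - α) * ip R θ := by
      rw [← hRs]; exact mul_le_mul_of_nonneg_left hcon hs0.le
    rw [a1, a2] at a5
    have a6 := mul_le_mul_of_nonneg_left a3 s1.le
    have a7 := mul_le_mul_of_nonneg_left a4 s2.le
    have a8 : Real.sin (β - θ) * ip R α = Real.sin (β - θ) * hs (Kl K l) α := by linarith
    have a9 : Real.sin (θ - α) * ip R β = Real.sin (θ - α) * hs (Kl K l) β := by linarith
    have b1 := mul_left_cancel₀ s1.ne' a8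
    have b2 := mul_left_cancel₀ s2.ne' a9
    exact hPQ ((strict hK hl hP hR hPs b1).trans (strict hK hl hQ hR hQs b2).symm)
  set m := (α + β) / 2 with hm
  set δ := (β - α) / 2 with hδ
  have hVis : Vis (Kl K l) X m δ := by
    obtain ⟨α', β', c1, c2, c3, c4, c5, c6, c7⟩ := vis hb (hvis m (by linarith) (by linarith))
    have e1 : α' = α := by
      rcases lt_trichotomy α' α with h | h | h
      · have := c6 α h (by linarith); rw [hXα] at this; exact absurd this (lt_irrefl _)
      · exact h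
      · have := hvis α' h (by linarith); rw [c4] at this; exact absurd this (lt_irrefl _)
    have e2 : β' = β := by
      rcases lt_trichotomy β' β with h | h | h
      · have := hvis β' (by linarith) h; rw [c5] at this; exact absurd this (lt_irrefl _)
      · exact h
      · have := c6 β (by linarith) h; rw [hXβ] at this; exact absurd this (lt_irrefl _)
    rw [e1] at c4 c3 c6 c7 c1
    rw [e2] at c5 c3 c6 c7 c2
    exact Vis.of_arc hαβ c3 c4 c5 c6 c7
  have hXout : X ∉ Kl K l := by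
    intro h
    have h1 := le_hs hb.cpt h m
    have h2 := hvis m (by linarith) (by linarith)
    linarith
  have hlL : l < LL K X := not_le.1 hXout
  set ln : ℕ → ℝ := fun n => l + (LL K X - l) / ((n : ℝ) + 2) with hln
  have hln1 : ∀ n, l < ln n := by
    intro n
    have : 0 < (LL K X - l) / ((n : ℝ) + 2) := div_pos (by linarith) (by positivity)
    simp only [hln]; linarith
  have hln2 : ∀ n, ln n < LL K X := by
    intro n
    have : (LL K X - l) / ((n : ℝ) + 2) < LL K X - l := by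
      rw [div_lt_iff₀ (by positivity)]
      have h1 : 0 < LL K X - l := by linarith
      have h2 : (0 : ℝ) ≤ n := Nat.cast_nonneg n
      nlinarith
    simp only [hln]; linarith
  have hlnt : Tendsto ln atTop (𝓝 l) := by
    have h1 : Tendsto (fun n : ℕ => (LL K X - l) / ((n : ℝ) + 2)) atTop (𝓝 0) := by
      apply Tendsto.div_atTop tendsto_const_nhds
      exact tendsto_atTop_add_const_right _ _ tendsto_natCast_atTop_atTop
    have := (tendsto_const_nhds (x := l)).add h1
    simpa using this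
  have hXn : ∀ n, X ∉ Kl K (ln n) := fun n h => absurd (show LL K X ≤ ln n from h) (not_le.2 (hln2 n))
  choose δn hVn using fun n => bis2 hK hT hl (hl.trans (hln1 n)) hXout (hXn n) hVis
  have hbn : ∀ n, Body (Kl K (ln n)) := fun n => Kl_body hK (hl.le.trans (hln1 n).le)
  -- strict monotonicity
  have hmono : ∀ n θ, hs (Kl K l) θ < hs (Kl K (ln n)) θ := by
    intro n θ
    obtain ⟨P', hP', hPe⟩ := exists_hs (hbn n).cpt (hbn n).ne θ
    have h1 := incr_ge hK hl (hln1 n).le hP' hPe.symm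
    by_contra h2
    push Not at h2
    have h3 : ‖G K P'‖ * (hs (Kl K (ln n)) θ - hs (Kl K l) θ) ≤ 0 :=
      mul_nonpos_of_nonneg_of_nonpos (norm_nonneg _) (by linarith)
    have := hln1 n
    linarith
  have hδlt : ∀ n, δn n < δ := by
    intro n
    by_contra hcon
    push Not at hcon
    have h1 := (hVn n).hi
    have h2 := hmono n (m + δn n)
    rw [h1] at h2
    rcases lt_or_eq_of_le hcon with h | h
    · have h3 := hVis.neg (m + δn n) (by linarith) (by
        have := (hVn n).δ1; have := hVis.δ1; linarith)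
      linarith
    · rw [← h] at h2
      have h3 := hVis.hi
      linarith
  have hδt : Tendsto δn atTop (𝓝 δ) := by
    rw [tendsto_order]
    constructor
    · intro d hd
      rcases le_or_gt d 0 with h0 | h0
      · exact Eventually.of_forall fun n => lt_of_le_of_lt h0 (hVn n).δ0
      · have hd1 : hs (Kl K l) (m + d) < ip X (m + d) := hVis.pos _ (by linarith) (by linarith)
        obtain ⟨P', hP', hPe⟩ := exists_hs hb.cpt hb.ne (m + d)
        have hg := G_ne_zero hK (supp_out hK hl hP' hPe.symm)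
        have h1 : ∀ᶠ n in atTop, ln n < l + ‖G K P'‖ * (ip X (m + d) - hs (Kl K l) (m + d)) := by
          apply hlnt.eventually (gt_mem_nhds _)
          have := mul_pos hg (sub_pos.2 hd1)
          linarith
        filter_upwards [h1] with n hn
        have h2 := incr_le hK hl (hln1 n).le hP' hPe.symm
        have h3 : ‖G K P'‖ * (hs (Kl K (ln n)) (m + d) - hs (Kl K l) (m + d)) <
            ‖G K P'‖ * (ip X (m + d) - hs (Kl K l) (m + d)) := by linarith
        have h4 := lt_of_mul_lt_mul_left h3 hg.le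
        by_contra hcon
        push Not at hcon
        rcases lt_or_eq_of_le hcon with h | h
        · have h5 := (hVn n).neg (m + d) (by linarith) (by
            have := (hVn n).δ1; have := hVis.δ1; linarith)
          linarith
        · have h5 := (hVn n).hi
          rw [h] at h5
          linarith
    · intro d hd
      exact Eventually.of_forall fun n => (hδlt n).trans hd
  set εn : ℕ → ℝ := fun n => δ - δn n with hεn
  have hε0 : ∀ n, 0 < εn n := fun n => sub_pos.2 (hδlt n)
  have hε1 : ∀ n, εn n < Real.pi / 2 := fun n => by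
    have := (hVn n).δ0; have := hVis.δ1; simp only [hεn]; linarith
  have hεt : Tendsto εn atTop (𝓝 0) := by
    have := (tendsto_const_nhds (x := δ)).sub hδt
    simpa using this
  set t₂ : ℝ := -(ip (X - Q) (β + Real.pi / 2)) with ht₂
  have hXQ : X - Q = (-(1 * t₂)) • ev (β + Real.pi / 2) := by
    have h1 := decomp (X - Q) β
    have h2 : ip (X - Q) β = 0 := by rw [ip_sub, hXβ, hQs, sub_self]
    rw [h2, zero_smul, zero_add] at h1
    rw [one_mul, ht₂, neg_neg]
    exact h1
  have hXP : X - P = (-(-1 * t₁)) • ev (α + Real.pi / 2) := by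
    rw [hX, add_sub_cancel_left]; congr 1; ring
  have L1 := squeeze hK hl hQ hQs (Or.inl rfl) hXQ (fun n => (hln1 n).le) hlnt hε0 hε1 hεt (by
    intro n
    have e : β - 1 * εn n = m + δn n := by simp only [hεn, hm, hδ]; ring
    rw [e]; exact (hVn n).hi)
  have L2 := squeeze hK hl hP hPs (Or.inr rfl) hXP (fun n => (hln1 n).le) hlnt hε0 hε1 hεt (by
    intro n
    have e : α - -1 * εn n = m - δn n := by simp only [hεn, hm, hδ]; ring
    rw [e]; exact (hVn n).lo)
  have hlim : ‖G K Q‖ * t₂ = ‖G K P‖ * t₁ := tendsto_nhds_unique L1 L2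
  have gP := G_ne_zero hK (supp_out hK hl hP hPs)
  have gQ := G_ne_zero hK (supp_out hK hl hQ hQs)
  have e1 : ip (Q - P) β = t₁ * Real.sin (β - α) := by
    have : Q - P = (X - P) - (X - Q) := by abel
    rw [this, ip_sub, hXP, hXQ, ip_smul, ip_smul, ip_ev, ip_ev]
    have a1 : β - (α + Real.pi / 2) = (β - α) - Real.pi / 2 := by ring
    have a2 : β - (β + Real.pi / 2) = -(Real.pi / 2) := by ring
    rw [a1, a2, Real.cos_sub_pi_div_two, Real.cos_neg, Real.cos_pi_div_two]
    ring
  have e2 : ip (P - Q) α = t₂ * Real.sin (β - α) := by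
    have : P - Q = (X - Q) - (X - P) := by abel
    rw [this, ip_sub, hXP, hXQ, ip_smul, ip_smul, ip_ev, ip_ev]
    have a1 : α - (β + Real.pi / 2) = -((β - α) + Real.pi / 2) := by ring
    have a2 : α - (α + Real.pi / 2) = -(Real.pi / 2) := by ring
    rw [a1, a2, Real.cos_neg, Real.cos_add_pi_div_two, Real.cos_neg, Real.cos_pi_div_two]
    ring
  rw [e1, e2, inv_mul_eq_div, inv_mul_eq_div, div_eq_div_iff gP.ne' gQ.ne']
  calc t₂ * Real.sin (β - α) * ‖G K Q‖ = Real.sin (β - α) * (‖G K Q‖ * t₂) := by ring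
    _ = Real.sin (β - α) * (‖G K P‖ * t₁) := by rw [hlim]
    _ = t₁ * Real.sin (β - α) * ‖G K P‖ := by ring

end Pool.Agent.Y508
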